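import Pool.Agent.R534.IC.Main

/-!
# The special cases: finite `C` and `Σ⁰₃` sets `C`
-/

namespace Pool.R534.IC

open Encodable

/-! ## The difference hierarchy -/

theorem exists_len {P : ℕ → Prop} (hP : ∀ i, P (i + 1) → P i) (n : ℕ) :
    ∃ m, m ≤ n ∧ ∀ i, i < n → (P i ↔ i < m) := by
  have hanti : ∀ i j, i ≤ j → P j → P i := by
    intro i j hij
    induction j, hij using Nat.le_induction with
    | base => exact id
    | succ d _ ih => exact fun h => ih (hP d h)
  induction n with
  | zero => exact ⟨0, le_rfl, fun i hi => absurd hi (Nat.not_lt_zero i)⟩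
  | succ n ih =>
    obtain ⟨m, hm, h⟩ := ih
    by_cases hPn : m = n ∧ P n
    · refine ⟨n + 1, le_rfl, fun i hi => ?_⟩
      exact ⟨fun _ => hi, fun _ => hanti i n (Nat.lt_succ_iff.1 hi) hPn.2⟩
    · refine ⟨m, hm.trans (Nat.le_succ n), fun i hi => ?_⟩
      rcases Nat.lt_succ_iff_lt_or_eq.1 hi with h1 | h1
      · exact h i h1
      · subst h1
        constructor
        · intro hi'
          by_contra hcon
          rcases Nat.lt_or_ge m i with h2 | h2
          · exact absurd ((h m h2).1 (hanti m i h2.le hi')) (lt_irrefl m)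
          · exact hPn ⟨le_antisymm hm h2, hi'⟩
        · intro h2
          omega

theorem dform {P : ℕ → Prop} {n m : ℕ} (hmn : m ≤ n) (h : ∀ i, i < n → (P i ↔ i < m)) :
    (∃ i, i < n ∧ Even i ∧ P i ∧ (i + 1 < n → ¬ P (i + 1))) ↔ Odd m := by
  constructor
  · rintro ⟨i, hi, he, hP, h1⟩
    have h2 := (h i hi).1 hP
    have h3 : m = i + 1 := by
      rcases Nat.lt_or_ge (i + 1) n with h4 | h4
      · have := mt (h (i + 1) h4).2 (h1 h4)
        omega
      · omega
    rw [h3]
    exact Even.add_one he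
  · rintro ⟨k, hk⟩
    refine ⟨2 * k, by omega, even_two_mul k, (h _ (by omega)).2 (by omega), fun h1 => ?_⟩
    rw [h _ h1]
    omega

/-! ## Counting changes -/

section
open Classical

/-- number of changes below `c` -/
noncomputable def cnt (C : Set ℕ) (c : ℕ) : ℕ := Nat.count (fun k => k ∈ Changes C) c

theorem cnt_zero (C : Set ℕ) : cnt C 0 = 0 := by simp [cnt]

theorem cnt_one (C : Set ℕ) : cnt C 1 = 0 := by
  unfold cnt
  rw [Nat.count_succ, Nat.count_zero]
  simp [Changes]

theorem cnt_succ (C : Set ℕ) (c : ℕ) :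
    cnt C (c + 1) = cnt C c + (if c ∈ Changes C then 1 else 0) := by
  unfold cnt
  rw [Nat.count_succ]

theorem cnt_mono (C : Set ℕ) {c d : ℕ} (h : c ≤ d) : cnt C c ≤ cnt C d :=
  Nat.count_monotone _ h

theorem mem_iff_cnt (C : Set ℕ) {c : ℕ} (hc : 1 ≤ c) :
    (c ∈ C ↔ 1 ∈ C) ↔ ¬ Odd (cnt C c) := by
  induction c, hc using Nat.le_induction with
  | base => simp [cnt_one]
  | succ c hc ih =>
    rw [cnt_succ]
    by_cases h : c ∈ Changes C
    · rw [if_pos h]
      have h1 : ¬ (c ∈ C ↔ c + 1 ∈ C) := h.2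
      have h2 : Odd (cnt C c + 1) ↔ ¬ Odd (cnt C c) := by
        rw [Nat.odd_add_one]
      rw [h2, ← ih]
      tauto
    · rw [if_neg h, add_zero]
      have h1 : (c ∈ C ↔ c + 1 ∈ C) := by
        by_contra h2
        exact h ⟨hc, h2⟩
      rw [← ih]
      tauto

theorem ncard_changes {C : Set ℕ} {M : ℕ} (hM : ∀ c ∈ C, c < M) :
    (Changes C).ncard = cnt C M := by
  have h : Changes C = ((Finset.range M).filter (fun k => k ∈ Changes C) : Finset ℕ) := by
    ext k
    simp only [Finset.coe_filter, Finset.mem_range, Set.mem_ofPred_eq]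
    constructor
    · intro hk
      refine ⟨?_, hk⟩
      have h1 : ¬ (k ∈ C ↔ k + 1 ∈ C) := hk.2
      by_cases h2 : k ∈ C
      · exact hM k h2
      · have h3 : k + 1 ∈ C := by tauto
        have := hM _ h3
        omega
    · exact fun h => h.2
  unfold cnt
  rw [Nat.count_eq_card_filter_range, ← Set.ncard_coe_finset, ← h]

end

/-! ## Finite `C`: upper bounds -/

/-- `T` is `X` or its complement, according to `1 ∉ C` or `1 ∈ C` -/
theorem dform_of_Gam {C : Set ℕ} {M : ℕ} (hM : ∀ c ∈ C, c < M) (hM1 : 1 ≤ M)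
    (hC : ∃ c ∈ C, 1 ≤ c) {E : ℕ → Set ℕ} (h1 : Pi1 (E 1)) (hU : USigma2 E)
    (hdec : ∀ c, E (c + 1) ⊆ E c) (hE0 : E 0 = Set.univ) {T : Set ℕ}
    (hfin : ∀ x c, x ∈ E c → x ∉ E (c + 1) → (x ∈ T ↔ ¬ (c ∈ C ↔ 1 ∈ C)))
    (hinf : ∀ x, (∀ c, x ∈ E c) → (x ∈ T ↔ 1 ∈ C)) :
    DSigma2 (Changes C).ncard T := by
  classical
  rw [ncard_changes hM]
  set n := cnt C M with hn
  have hMC : M ∉ C := fun h => absurd (hM M h) (lt_irrefl M)
  have hodd : Odd n ↔ 1 ∈ C := by
    have := mem_iff_cnt C hM1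
    rw [← hn] at this
    tauto
  have hn0 : 1 ≤ n := by
    by_contra hcon
    have h0 : n = 0 := by omega
    obtain ⟨c, hc, hc1⟩ := hC
    have h2 : cnt C c = 0 := by
      have := cnt_mono C (hM c hc).le
      omega
    have h3 := mem_iff_cnt C hc1
    rw [h2] at h3
    have h4 : ¬ Odd n := by rw [h0]; simp
    rw [hodd] at h4
    simp at h3
    tauto
  have hanti : ∀ x c d, c ≤ d → x ∈ E d → x ∈ E c := by
    intro x c d hcd
    induction d, hcd using Nat.le_induction with
    | base => exact id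
    | succ d _ ih => exact fun h => ih (hdec d h)
  have hci : ∀ i, ∃ c, i < n → ∀ d, i < cnt C d ↔ c ≤ d := by
    intro i
    by_cases hi : i < n
    · have hex : ∃ c, i < cnt C c := ⟨M, hi⟩
      refine ⟨Nat.find hex, fun _ d => ⟨fun hd => Nat.find_min' hex hd, fun hd => ?_⟩⟩
      exact lt_of_lt_of_le (Nat.find_spec hex) (cnt_mono C hd)
    · exact ⟨0, fun h => absurd h hi⟩
  choose ci hci using hci
  have hci2 : ∀ i, i < n → 2 ≤ ci i := by
    intro i hi
    by_contra hcon
    have h2 := (hci i hi 1).2 (by omega)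
    rw [cnt_one] at h2
    omega
  let Z : Prop := ¬ (0 ∈ C ↔ 1 ∈ C)
  refine ⟨fun i => {x | i < n ∧ (x ∈ E (ci i) ∨ (i = 0 ∧ Z ∧ x ∉ E 1))}, ?_, ?_, ?_⟩
  · intro i
    show S2 (fun x => i < n ∧ (x ∈ E (ci i) ∨ (i = 0 ∧ Z ∧ x ∉ E 1)))
    have hA : S2 (fun x => x ∈ E (ci i)) :=
      S2.comp hU (f := fun x : ℕ => (ci i, x)) ((Computable.const _).pair Computable.id)
    have hB : S2 (fun x => x ∉ E 1) := by
      obtain ⟨R, hR, h⟩ := h1
      refine ⟨fun q => !R (q.1, q.2.1), comp_not (hR.comp (Computable.fst.pair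
        (Computable.fst.comp Computable.snd))), fun x => ?_⟩
      show ¬ (x ∈ E 1) ↔ _
      rw [h x]
      push Not
      simp
    by_cases hi : i < n
    · by_cases hz : i = 0 ∧ Z
      · refine (S2.or hA hB).of_iff fun x => ?_
        tauto
      · refine hA.of_iff fun x => ?_
        tauto
    · refine ⟨fun _ => false, Computable.const false, fun x => ?_⟩
      simp [hi]
  · rintro i x ⟨hi, h2⟩
    refine ⟨by omega, Or.inl ?_⟩
    rcases h2 with h2 | h2
    · refine hanti x _ _ ?_ h2
      rw [← hci i (by omega)]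
      have := (hci (i + 1) hi (ci (i + 1))).2 le_rfl
      omega
    · omega
  · intro x
    by_cases hx : ∀ c, x ∈ E c
    · rw [dform (P := fun i => x ∈ {x | i < n ∧ (x ∈ E (ci i) ∨ (i = 0 ∧ Z ∧ x ∉ E 1))})
        (m := n) le_rfl, hodd]
      · exact hinf x hx
      · intro i hi
        exact ⟨fun _ => hi, fun _ => ⟨hi, Or.inl (hx _)⟩⟩
    · push Not at hx
      have hc' : x ∉ E (Nat.find hx) := Nat.find_spec hx
      have hc0 : Nat.find hx ≠ 0 := by
        intro h
        rw [h, hE0] at hc'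
        exact hc' (Set.mem_univ x)
      obtain ⟨c, hc⟩ := Nat.exists_eq_succ_of_ne_zero hc0
      have hcE : x ∈ E c := by
        by_contra h
        have := Nat.find_min' hx h
        omega
      have hcE' : x ∉ E (c + 1) := by
        rw [hc] at hc'
        exact hc'
      rw [hfin x c hcE hcE']
      have hval : ∀ d, x ∈ E d ↔ d ≤ c := by
        intro d
        constructor
        · intro hd
          by_contra hcon
          exact hcE' (hanti x _ _ (by omega) hd)
        · intro hd
          exact hanti x _ _ hd hcE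
      rcases Nat.eq_zero_or_pos c with h0 | h0
      · subst h0
        rw [dform (P := fun i => x ∈ {x | i < n ∧ (x ∈ E (ci i) ∨ (i = 0 ∧ Z ∧ x ∉ E 1))})
          (m := if Z then 1 else 0) (by split_ifs <;> omega)]
        · by_cases hZ : Z
          · rw [if_pos hZ]
            exact ⟨fun _ => odd_one, fun _ => hZ⟩
          · rw [if_neg hZ]
            exact ⟨fun h => absurd h hZ, fun h => by simp at h⟩
        · intro i hi
          have h5 := hci2 i hi
          simp only [Set.mem_ofPred_eq, hval]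
          by_cases hZ : Z
          · rw [if_pos hZ]
            constructor
            · rintro ⟨-, h | h⟩
              · omega
              · omega
            · intro h
              exact ⟨hi, Or.inr ⟨by omega, hZ, by omega⟩⟩
          · rw [if_neg hZ]
            constructor
            · rintro ⟨-, h | h⟩
              · omega
              · exact absurd h.2.1 hZ
            · intro h
              omega
      · rw [dform (P := fun i => x ∈ {x | i < n ∧ (x ∈ E (ci i) ∨ (i = 0 ∧ Z ∧ x ∉ E 1))})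
          (m := min n (cnt C c)) (min_le_left _ _)]
        · rcases Nat.lt_or_ge c M with h6 | h6
          · have h7 : cnt C c ≤ n := cnt_mono C h6.le
            rw [min_eq_right h7]
            have := mem_iff_cnt C h0
            tauto
          · have h7 : n ≤ cnt C c := cnt_mono C h6
            rw [min_eq_left h7, hodd]
            have hcC : c ∉ C := fun h => absurd (hM c h) (by omega)
            tauto
        · intro i hi
          have h5 := hci i hi c
          simp only [Set.mem_ofPred_eq, hval]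
          rw [lt_min_iff, h5]
          constructor
          · rintro ⟨-, h | h⟩
            · exact ⟨hi, h⟩
            · omega
          · rintro ⟨-, h⟩
            exact ⟨hi, Or.inl h⟩

theorem Gam_upper_even {C : Set ℕ} (hCf : C.Finite) (hC : ∃ c ∈ C, 1 ≤ c) (h1C : 1 ∉ C)
    {X : Set ℕ} (hX : Gam C X) : DSigma2 (Changes C).ncard X := by
  obtain ⟨M, hM⟩ := hCf.bddAbove
  obtain ⟨E, hE0, h1, hU, hdec, hXE⟩ := hX
  refine dform_of_Gam (M := M + 1) (fun c hc => Nat.lt_succ_of_le (hM hc)) (by omega) hC h1 hU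
    hdec hE0 ?_ ?_
  · intro x c hc hc'
    rw [hXE x]
    have huniq : ∀ d, x ∈ E d → x ∉ E (d + 1) → d = c := by
      have hanti : ∀ x c d, c ≤ d → x ∈ E d → x ∈ E c := by
        intro x c d hcd
        induction d, hcd using Nat.le_induction with
        | base => exact id
        | succ d _ ih => exact fun h => ih (hdec d h)
      intro d hd hd'
      by_contra hne
      rcases Nat.lt_or_gt_of_ne hne with h | h
      · exact hd' (hanti x _ _ h hc)
      · exact hc' (hanti x _ _ h hd)
    constructor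
    · rintro ⟨d, hd, h2, h3⟩
      rw [huniq d h2 h3] at hd
      tauto
    · intro h
      exact ⟨c, by tauto, hc, hc'⟩
  · intro x hx
    rw [hXE x]
    constructor
    · rintro ⟨d, hd, h2, h3⟩
      exact absurd (hx _) h3
    · intro h
      exact absurd h h1C

theorem Gam_upper_odd {C : Set ℕ} (hCf : C.Finite) (h1C : 1 ∈ C)
    {X : Set ℕ} (hX : Gam C X) : CoDSigma2 (Changes C).ncard X := by
  obtain ⟨M, hM⟩ := hCf.bddAbove
  obtain ⟨E, hE0, h1, hU, hdec, hXE⟩ := hX
  refine dform_of_Gam (M := M + 1) (fun c hc => Nat.lt_succ_of_le (hM hc)) (by omega)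
    ⟨1, h1C, le_rfl⟩ h1 hU hdec hE0 ?_ ?_
  · intro x c hc hc'
    show ¬ (x ∈ X) ↔ _
    rw [hXE x]
    have huniq : ∀ d, x ∈ E d → x ∉ E (d + 1) → d = c := by
      have hanti : ∀ x c d, c ≤ d → x ∈ E d → x ∈ E c := by
        intro x c d hcd
        induction d, hcd using Nat.le_induction with
        | base => exact id
        | succ d _ ih => exact fun h => ih (hdec d h)
      intro d hd hd'
      by_contra hne
      rcases Nat.lt_or_gt_of_ne hne with h | h
      · exact hd' (hanti x _ _ h hc)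
      · exact hc' (hanti x _ _ h hd)
    have : (∃ c ∈ C, x ∈ E c ∧ x ∉ E (c + 1)) ↔ c ∈ C := by
      constructor
      · rintro ⟨d, hd, h2, h3⟩
        rwa [huniq d h2 h3] at hd
      · intro h
        exact ⟨c, h, hc, hc'⟩
    rw [this]
    tauto
  · intro x hx
    show ¬ (x ∈ X) ↔ _
    rw [hXE x]
    constructor
    · intro _
      exact h1C
    · rintro - ⟨d, hd, h2, h3⟩
      exact h3 (hx _)

/-! ## Finite `C`: lower bounds -/

theorem finite_family (B : ℕ → Set ℕ) (hB : ∀ i, Sigma2 (B i)) (N : ℕ) :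
    S2 (fun q : ℕ × ℕ => q.1 < N ∧ q.2 ∈ B q.1) := by
  induction N with
  | zero =>
    refine ⟨fun _ => false, Computable.const false, fun x => ?_⟩
    simp
  | succ N ih =>
    have h1 : S2 (fun q : ℕ × ℕ => decide (q.1 = N) = true) :=
      S2.of_computable (PrimrecRel.comp (R := fun a b : ℕ => a = b) Primrec.eq Primrec.fst
        (Primrec.const N)).decide.to_comp
    have h2 : S2 (fun q : ℕ × ℕ => q.2 ∈ B N) := S2.comp (hB N) Computable.snd
    refine (S2.or ih (S2.and h1 h2)).of_iff fun q => ?_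
    rw [decide_eq_true_eq]
    constructor
    · rintro ⟨h3, h4⟩
      rcases Nat.lt_succ_iff_lt_or_eq.1 h3 with h5 | h5
      · exact Or.inl ⟨h5, h4⟩
      · exact Or.inr ⟨h5, h5 ▸ h4⟩
    · rintro (⟨h3, h4⟩ | ⟨h3, h4⟩)
      · exact ⟨by omega, h4⟩
      · exact ⟨by omega, h3 ▸ h4⟩

theorem Gam_of_dform {C : Set ℕ} {M : ℕ} (hM : ∀ c ∈ C, c < M) (hM1 : 1 ≤ M)
    {T : Set ℕ} (hT : DSigma2 (Changes C).ncard T) :
    ∃ E : ℕ → Set ℕ, E 0 = Set.univ ∧ Pi1 (E 1) ∧ USigma2 E ∧ (∀ c, E (c + 1) ⊆ E c) ∧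
      ∀ x, ∃ c, x ∈ E c ∧ x ∉ E (c + 1) ∧ (x ∈ T ↔ ¬ (c ∈ C ↔ 1 ∈ C)) := by
  classical
  rw [ncard_changes hM] at hT
  set n := cnt C M with hn
  obtain ⟨A, hA, hAdec, hTA⟩ := hT
  have hm : ∀ x, ∃ m, m ≤ n ∧ ∀ i, i < n → (x ∈ A i ↔ i < m) := fun x =>
    exists_len (P := fun i => x ∈ A i) (fun i h => hAdec i h) n
  choose m hmn hm using hm
  refine ⟨fun c => {x | c ≤ M ∧ cnt C c ≤ m x}, ?_, ?_, ?_, ?_, ?_⟩
  · ext x
    simp [cnt_zero]
  · refine ⟨fun _ => true, Computable.const true, fun x => ?_⟩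
    simp [cnt_one, hM1]
  · have hS : ∀ c, Sigma2 ({x | c ≤ M ∧ cnt C c ≤ m x} : Set ℕ) := by
      intro c
      show S2 (fun x => c ≤ M ∧ cnt C c ≤ m x)
      by_cases hc : c ≤ M
      · rcases Nat.eq_zero_or_pos (cnt C c) with h0 | h0
        · refine ⟨fun _ => true, Computable.const true, fun x => ?_⟩
          simp [h0, hc]
        · refine S2.of_iff (hA (cnt C c - 1)) fun x => ?_
          have h2 : cnt C c ≤ n := cnt_mono C hc
          rw [hm x _ (by omega)]
          constructor
          · rintro ⟨-, h⟩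
            omega
          · intro h
            exact ⟨hc, by omega⟩
      · refine ⟨fun _ => false, Computable.const false, fun x => ?_⟩
        simp [hc]
    refine (finite_family _ hS (M + 1)).of_iff fun q => ?_
    constructor
    · rintro ⟨h1, h2⟩
      exact ⟨by omega, h1, h2⟩
    · rintro ⟨-, h1, h2⟩
      exact ⟨h1, h2⟩
  · rintro c x ⟨h1, h2⟩
    exact ⟨by omega, (cnt_mono C (Nat.le_succ c)).trans h2⟩
  · intro x
    have hex : ∃ c, ¬ (c ≤ M ∧ cnt C c ≤ m x) := ⟨M + 1, by omega⟩
    have hc' := Nat.find_spec hex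
    have h01 : 1 < Nat.find hex := by
      by_contra hcon
      have h2 : Nat.find hex ≤ 1 := by omega
      apply hc'
      refine ⟨h2.trans hM1, ?_⟩
      have := cnt_mono C h2
      rw [cnt_one] at this
      omega
    obtain ⟨c, hc⟩ := Nat.exists_eq_succ_of_ne_zero (show Nat.find hex ≠ 0 by omega)
    have hcE : c ≤ M ∧ cnt C c ≤ m x := by
      by_contra h
      have := Nat.find_min' hex h
      omega
    rw [hc] at hc'
    refine ⟨c, hcE, hc', ?_⟩
    have hcm : cnt C c = m x := by
      by_cases h3 : c + 1 ≤ M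
      · have h4 : ¬ cnt C (c + 1) ≤ m x := fun h => hc' ⟨h3, h⟩
        rw [cnt_succ] at h4
        have := hcE.2
        split_ifs at h4 <;> omega
      · have h4 : c = M := by omega
        have h5 := hmn x
        have h6 := hcE.2
        rw [h4] at h6 ⊢
        omega
    rw [hTA x, dform (P := fun i => x ∈ A i) (hmn x) (hm x), ← hcm]
    have := mem_iff_cnt C (show 1 ≤ c by omega)
    tauto

theorem Gam_lower_even {C : Set ℕ} (hCf : C.Finite) (h1C : 1 ∉ C)
    {X : Set ℕ} (hX : DSigma2 (Changes C).ncard X) : Gam C X := by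
  obtain ⟨M, hM⟩ := hCf.bddAbove
  obtain ⟨E, hE0, h1, hU, hdec, hXE⟩ := Gam_of_dform (M := M + 1)
    (fun c hc => Nat.lt_succ_of_le (hM hc)) (by omega) hX
  refine ⟨E, hE0, h1, hU, hdec, fun x => ?_⟩
  obtain ⟨c, hc, hc', hx⟩ := hXE x
  have hanti : ∀ x c d, c ≤ d → x ∈ E d → x ∈ E c := by
    intro x c d hcd
    induction d, hcd using Nat.le_induction with
    | base => exact id
    | succ d _ ih => exact fun h => ih (hdec d h)
  have huniq : ∀ d, x ∈ E d → x ∉ E (d + 1) → d = c := by
    intro d hd hd'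
    by_contra hne
    rcases Nat.lt_or_gt_of_ne hne with h | h
    · exact hd' (hanti x _ _ h hc)
    · exact hc' (hanti x _ _ h hd)
  rw [hx]
  constructor
  · intro h
    exact ⟨c, by tauto, hc, hc'⟩
  · rintro ⟨d, hd, h2, h3⟩
    rw [huniq d h2 h3] at hd
    tauto

theorem Gam_lower_odd {C : Set ℕ} (hCf : C.Finite) (h1C : 1 ∈ C)
    {X : Set ℕ} (hX : CoDSigma2 (Changes C).ncard X) : Gam C X := by
  obtain ⟨M, hM⟩ := hCf.bddAbove
  obtain ⟨E, hE0, h1, hU, hdec, hXE⟩ := Gam_of_dform (M := M + 1)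
    (fun c hc => Nat.lt_succ_of_le (hM hc)) (by omega) hX
  refine ⟨E, hE0, h1, hU, hdec, fun x => ?_⟩
  obtain ⟨c, hc, hc', hx⟩ := hXE x
  have hanti : ∀ x c d, c ≤ d → x ∈ E d → x ∈ E c := by
    intro x c d hcd
    induction d, hcd using Nat.le_induction with
    | base => exact id
    | succ d _ ih => exact fun h => ih (hdec d h)
  have huniq : ∀ d, x ∈ E d → x ∉ E (d + 1) → d = c := by
    intro d hd hd'
    by_contra hne
    rcases Nat.lt_or_gt_of_ne hne with h | h
    · exact hd' (hanti x _ _ h hc)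
    · exact hc' (hanti x _ _ h hd)
  have hx' : ¬ (x ∈ X) ↔ ¬ (c ∈ C ↔ 1 ∈ C) := hx
  constructor
  · intro h
    exact ⟨c, by tauto, hc, hc'⟩
  · rintro ⟨d, hd, h2, h3⟩
    rw [huniq d h2 h3] at hd
    tauto

/-- Finite `C` not contained in `{0}`, with `1 ∉ C`: complete for level `n` of the difference
hierarchy, `n` the number of changes (an even number). -/
theorem finite_even {π : ℕ → ℕ → Bool} (hπ : EffEnum π) {C : Set ℕ} (hCf : C.Finite)
    (hC : ∃ c ∈ C, 1 ≤ c) (h1C : 1 ∉ C) :
    Complete (DSigma2 (Changes C).ncard) (I π C) :=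
  ⟨Gam_upper_even hCf hC h1C (I_complete hπ C).1,
    fun Y hY => (I_complete hπ C).2 Y (Gam_lower_even hCf h1C hY)⟩

/-- Finite `C` with `1 ∈ C`: complete for the dual of level `n` of the difference hierarchy. -/
theorem finite_odd {π : ℕ → ℕ → Bool} (hπ : EffEnum π) {C : Set ℕ} (hCf : C.Finite)
    (h1C : 1 ∈ C) :
    Complete (CoDSigma2 (Changes C).ncard) (I π C) :=
  ⟨Gam_upper_odd hCf h1C (I_complete hπ C).1,
    fun Y hY => (I_complete hπ C).2 Y (Gam_lower_odd hCf h1C hY)⟩

end Pool.R534.IC
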