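import Pool.Agent.R534.IC.Sig3

/-!
# `Σ⁰₃`-hardness of `I_C` implies that `C` is approachable
-/

namespace Pool.R534.IC

open Encodable Nat.Partrec Filter

/-! ## A universal `Σ⁰₂` relation -/

/-- `∃ a, ∀ b, VV i c x a b` is universal for `Σ⁰₂` relations of `c, x` -/
def VV (i c x a b : ℕ) : Bool :=
  (Code.evaln b (Denumerable.ofNat Code i) (Nat.pair c (Nat.pair x a))).isNone

theorem VV_anti {i c x a b b' : ℕ} (h : b ≤ b') (hV : VV i c x a b' = true) :
    VV i c x a b = true := by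
  unfold VV at *
  rw [Option.isNone_iff_eq_none] at *
  by_contra hcon
  obtain ⟨v, hv⟩ := Option.ne_none_iff_exists'.1 hcon
  have := Code.evaln_mono h (Option.mem_def.2 hv)
  rw [hV] at this
  exact absurd this (by simp)

theorem comp_VV : Computable (fun q : ((ℕ × ℕ) × ℕ × ℕ) × ℕ =>
    VV q.1.1.1 q.1.1.2 q.1.2.1 q.1.2.2 q.2) := by
  have h1 : Primrec (fun q : ((ℕ × ℕ) × ℕ × ℕ) × ℕ =>
      Code.evaln q.2 (Denumerable.ofNat Code q.1.1.1)
        (Nat.pair q.1.1.2 (Nat.pair q.1.2.1 q.1.2.2))) := by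
    have ha : Primrec (fun q : ((ℕ × ℕ) × ℕ × ℕ) × ℕ => Denumerable.ofNat Code q.1.1.1) :=
      (Primrec.ofNat Code).comp (Primrec.fst.comp (Primrec.fst.comp Primrec.fst))
    have hb : Primrec (fun q : ((ℕ × ℕ) × ℕ × ℕ) × ℕ =>
        Nat.pair q.1.1.2 (Nat.pair q.1.2.1 q.1.2.2)) :=
      Primrec₂.natPair.comp (Primrec.snd.comp (Primrec.fst.comp Primrec.fst))
        (Primrec₂.natPair.comp (Primrec.fst.comp (Primrec.snd.comp Primrec.fst))
          (Primrec.snd.comp (Primrec.snd.comp Primrec.fst)))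
    exact Code.primrec_evaln.comp ((Primrec.snd.pair ha).pair hb)
  have h2 : Primrec (fun o : Option ℕ => o.isNone) := by
    have : Primrec (fun o : Option ℕ => !o.isSome) := Primrec.not.comp Primrec.option_isSome
    exact this.of_eq (fun o => by cases o <;> rfl)
  exact (h2.comp h1).to_comp

theorem univ_VV {E : ℕ → Set ℕ} (hE : USigma2 E) :
    ∃ i, ∀ c x, x ∈ E c ↔ ∃ a, ∀ b, VV i c x a b = true := by
  obtain ⟨R, hR, h⟩ := hE
  have hp : Computable₂ (fun (n b : ℕ) =>
      !R (((Nat.unpair n).1, (Nat.unpair (Nat.unpair n).2).1),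
        (Nat.unpair (Nat.unpair n).2).2, b)) := by
    have h1 : Computable (fun q : ℕ × ℕ => Nat.unpair q.1) :=
      Computable.unpair.comp Computable.fst
    have h2 : Computable (fun q : ℕ × ℕ => Nat.unpair (Nat.unpair q.1).2) :=
      Computable.unpair.comp (Computable.snd.comp h1)
    exact (comp_not (hR.comp (((Computable.fst.comp h1).pair (Computable.fst.comp h2)).pair
      ((Computable.snd.comp h2).pair Computable.snd)))).to₂
  have hf : Nat.Partrec (fun n => Nat.rfind (fun b =>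
      (Part.some (!R (((Nat.unpair n).1, (Nat.unpair (Nat.unpair n).2).1),
        (Nat.unpair (Nat.unpair n).2).2, b)) : Part Bool))) :=
    Partrec.nat_iff.1 (Partrec.rfind hp.partrec₂)
  obtain ⟨c0, hc0⟩ := Code.exists_code.1 hf
  refine ⟨encode c0, fun c x => ?_⟩
  have h3 := h (c, x)
  simp only at h3
  rw [h3]
  refine exists_congr fun a => ?_
  have h4 : (∀ b, VV (encode c0) c x a b = true) ↔
      ¬ ∃ v, v ∈ Code.eval c0 (Nat.pair c (Nat.pair x a)) := by
    constructor
    · rintro h5 ⟨v, hv⟩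
      obtain ⟨k, hk⟩ := Code.evaln_complete.1 hv
      have h6 := h5 k
      unfold VV at h6
      rw [Denumerable.ofNat_encode, Option.isNone_iff_eq_none] at h6
      rw [h6] at hk
      exact absurd hk (by simp)
    · intro h5 b
      unfold VV
      rw [Denumerable.ofNat_encode, Option.isNone_iff_eq_none]
      by_contra hcon
      obtain ⟨v, hv⟩ := Option.ne_none_iff_exists'.1 hcon
      exact h5 ⟨v, Code.evaln_sound (Option.mem_def.2 hv)⟩
  rw [h4, hc0]
  simp only [Nat.unpair_pair]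
  constructor
  · rintro h5 ⟨v, hv⟩
    have h6 := (Nat.mem_rfind.1 hv).1
    have h7 := Part.mem_some_iff.1 h6
    rw [h5 v] at h7
    exact absurd h7 (by simp)
  · intro h5 b
    by_contra hcon
    apply h5
    refine Part.dom_iff_mem.1 (Nat.rfind_dom.2 ⟨b, ?_, fun _ => trivial⟩)
    refine Part.mem_some_iff.2 ?_
    simpa using hcon

/-! ## Approximations -/

/-- `c ≤ g_{s,b}(j)` -/
def HH (i j s c b : ℕ) : Bool :=
  decide (∀ c', c' < c → decide (∃ a, a < s + 1 ∧ VV i (c' + 1) (Nat.pair i j) a b = true) = true)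

theorem comp_HH : Computable (fun q : (ℕ × ℕ × ℕ) × ℕ × ℕ =>
    HH q.1.1 q.1.2.1 q.1.2.2 q.2.1 q.2.2) := by
  unfold HH
  refine comp_ball (f := fun (q : (ℕ × ℕ × ℕ) × ℕ × ℕ) c' =>
    decide (∃ a, a < q.1.2.2 + 1 ∧ VV q.1.1 (c' + 1) (Nat.pair q.1.1 q.1.2.1) a q.2.2 = true))
    ?_ (Computable.fst.comp Computable.snd)
  have h0 : Computable (fun r : ((ℕ × ℕ × ℕ) × ℕ × ℕ) × ℕ => decide (∃ a, a < r.1.1.2.2 + 1 ∧
      VV r.1.1.1 (r.2 + 1) (Nat.pair r.1.1.1 r.1.1.2.1) a r.1.2.2 = true)) := by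
    refine comp_bex (f := fun (r : ((ℕ × ℕ × ℕ) × ℕ × ℕ) × ℕ) a =>
      VV r.1.1.1 (r.2 + 1) (Nat.pair r.1.1.1 r.1.1.2.1) a r.1.2.2) ?_
      (Computable.succ.comp (Computable.snd.comp (Computable.snd.comp
        (Computable.fst.comp Computable.fst))))
    have h1 : Computable (fun t : (((ℕ × ℕ × ℕ) × ℕ × ℕ) × ℕ) × ℕ =>
        (((t.1.1.1.1, t.1.2 + 1), (Nat.pair t.1.1.1.1 t.1.1.1.2.1, t.2)), t.1.1.2.2)) := by
      have e1 : Computable (fun t : (((ℕ × ℕ × ℕ) × ℕ × ℕ) × ℕ) × ℕ => t.1.1.1) :=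
        Computable.fst.comp (Computable.fst.comp Computable.fst)
      have e2 : Computable (fun t : (((ℕ × ℕ × ℕ) × ℕ × ℕ) × ℕ) × ℕ => t.1.1.1.1) :=
        Computable.fst.comp e1
      have e3 : Computable (fun t : (((ℕ × ℕ × ℕ) × ℕ × ℕ) × ℕ) × ℕ => t.1.1.1.2.1) :=
        Computable.fst.comp (Computable.snd.comp e1)
      exact ((e2.pair (Computable.succ.comp (Computable.snd.comp Computable.fst))).pair
        ((Primrec₂.natPair.to_comp.comp e2 e3).pair Computable.snd)).pair
        (Computable.snd.comp (Computable.snd.comp (Computable.fst.comp Computable.fst)))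
    exact (comp_VV.comp h1).to₂
  exact h0.to₂

theorem HH_down {i j s c c' b : ℕ} (h : c ≤ c') (hH : HH i j s c' b = true) :
    HH i j s c b = true := by
  unfold HH at *
  rw [decide_eq_true_eq] at *
  exact fun d hd => hH d (lt_of_lt_of_le hd h)

theorem HH_anti {i j s c b b' : ℕ} (h : b ≤ b') (hH : HH i j s c b' = true) :
    HH i j s c b = true := by
  unfold HH at *
  rw [decide_eq_true_eq] at *
  intro d hd
  have := hH d hd
  rw [decide_eq_true_eq] at *
  obtain ⟨a, ha, h1⟩ := this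
  exact ⟨a, ha, VV_anti h h1⟩

/-- the approximation `g_{s,b}(j)` -/
def gg (i j s b : ℕ) : ℕ :=
  Nat.rec (motive := fun _ => ℕ) 0 (fun c r => cond (HH i j s (c + 1) b) (c + 1) r) s

theorem comp_gg : Computable (fun q : ℕ × ℕ × ℕ × ℕ => gg q.1 q.2.1 q.2.2.1 q.2.2.2) := by
  unfold gg
  have hs : Computable (fun q : ℕ × ℕ × ℕ × ℕ => q.2.2.1) :=
    Computable.fst.comp (Computable.snd.comp Computable.snd)
  refine Computable.nat_rec (h := fun (q : ℕ × ℕ × ℕ × ℕ) (p : ℕ × ℕ) =>
    cond (HH q.1 q.2.1 q.2.2.1 (p.1 + 1) q.2.2.2) (p.1 + 1) p.2) hs (Computable.const 0) ?_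
  have h1 : Computable (fun t : (ℕ × ℕ × ℕ × ℕ) × ℕ × ℕ =>
      ((t.1.1, t.1.2.1, t.1.2.2.1), (t.2.1 + 1, t.1.2.2.2))) :=
    ((Computable.fst.comp Computable.fst).pair
      ((Computable.fst.comp (Computable.snd.comp Computable.fst)).pair (hs.comp Computable.fst))).pair
      ((Computable.succ.comp (Computable.fst.comp Computable.snd)).pair
        (Computable.snd.comp (Computable.snd.comp (Computable.snd.comp Computable.fst))))
  exact (Computable.cond (comp_HH.comp h1)
    (Computable.succ.comp (Computable.fst.comp Computable.snd))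
    (Computable.snd.comp Computable.snd)).to₂

theorem le_gg {i j s b c : ℕ} : c ≤ gg i j s b ↔ c ≤ s ∧ HH i j s c b = true := by
  have key : ∀ m, (c ≤ Nat.rec (motive := fun _ => ℕ) 0
      (fun c r => cond (HH i j s (c + 1) b) (c + 1) r) m ↔ c ≤ m ∧ HH i j s c b = true) := by
    intro m
    induction m with
    | zero =>
      simp only [Nat.rec_zero, Nat.le_zero]
      constructor
      · intro h
        subst h
        exact ⟨rfl, by simp [HH]⟩
      · exact fun h => h.1
    | succ m ih =>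
      show c ≤ cond (HH i j s (m + 1) b) (m + 1) _ ↔ _
      cases h : HH i j s (m + 1) b with
      | true =>
        rw [cond_true]
        exact ⟨fun h1 => ⟨h1, HH_down h1 h⟩, fun h1 => h1.1⟩
      | false =>
        rw [cond_false, ih]
        constructor
        · rintro ⟨h1, h2⟩
          exact ⟨by omega, h2⟩
        · rintro ⟨h1, h2⟩
          refine ⟨?_, h2⟩
          by_contra hcon
          have : c = m + 1 := by omega
          subst this
          rw [h] at h2
          exact absurd h2 (by simp)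
  exact key s

attribute [irreducible] gg

theorem gg_anti {i j s : ℕ} : Antitone (gg i j s) := by
  intro b b' hb
  rw [le_gg]
  have := (le_gg (i := i) (j := j) (s := s) (b := b') (c := gg i j s b')).1 le_rfl
  exact ⟨this.1, HH_anti hb this.2⟩

theorem ev_const {f : ℕ → ℕ} (hf : Antitone f) : ∃ v, ∀ᶠ b in atTop, f b = v := by
  classical
  have hex : ∃ v, ∃ b, f b = v := ⟨f 0, 0, rfl⟩
  obtain ⟨b0, hb0⟩ := Nat.find_spec hex
  refine ⟨Nat.find hex, eventually_atTop.2 ⟨b0, fun b hb => ?_⟩⟩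
  refine le_antisymm ?_ (Nat.find_min' hex ⟨b, rfl⟩)
  rw [← hb0]
  exact hf hb

/-- the limit `g_s(j)` -/
noncomputable def GG (i j s : ℕ) : ℕ := (ev_const (gg_anti (i := i) (j := j) (s := s))).choose

theorem GG_spec (i j s : ℕ) : ∀ᶠ b in atTop, gg i j s b = GG i j s :=
  (ev_const (gg_anti (i := i) (j := j) (s := s))).choose_spec

theorem le_GG {i j s c : ℕ} : c ≤ GG i j s ↔ c ≤ s ∧ ∀ b, HH i j s c b = true := by
  obtain ⟨b0, hb0⟩ := eventually_atTop.1 (GG_spec i j s)
  constructor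
  · intro h
    refine ⟨?_, fun b => ?_⟩
    · rw [← hb0 b0 le_rfl] at h
      exact (le_gg.1 h).1
    · rw [← hb0 (max b b0) (le_max_right _ _)] at h
      exact HH_anti (le_max_left _ _) (le_gg.1 h).2
  · rintro ⟨h1, h2⟩
    rw [← hb0 b0 le_rfl, le_gg]
    exact ⟨h1, h2 b0⟩

theorem forall_HH {i j s c : ℕ} : (∀ b, HH i j s c b = true) ↔
    ∀ c', c' < c → ∃ a, a < s + 1 ∧ ∀ b, VV i (c' + 1) (Nat.pair i j) a b = true := by
  constructor
  · intro h c' hc'
    by_contra hcon
    push Not at hcon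
    have h1 : ∀ a, ∃ b, a < s + 1 → VV i (c' + 1) (Nat.pair i j) a b ≠ true := by
      intro a
      by_cases ha : a < s + 1
      · obtain ⟨b, hb⟩ := hcon a ha
        exact ⟨b, fun _ => hb⟩
      · exact ⟨0, fun h => absurd h ha⟩
    choose β hβ using h1
    have h2 := h ((Finset.range (s + 1)).sup β)
    unfold HH at h2
    rw [decide_eq_true_eq] at h2
    have h3 := h2 c' hc'
    rw [decide_eq_true_eq] at h3
    obtain ⟨a, ha, h4⟩ := h3
    exact hβ a ha (VV_anti (Finset.le_sup (Finset.mem_range.2 ha)) h4)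
  · intro h b
    unfold HH
    rw [decide_eq_true_eq]
    intro c' hc'
    rw [decide_eq_true_eq]
    obtain ⟨a, ha, h1⟩ := h c' hc'
    exact ⟨a, ha, h1 b⟩

theorem GG_mono {i j : ℕ} : Monotone (GG i j) := by
  intro s s' hs
  rw [le_GG]
  have h := (le_GG (i := i) (j := j) (s := s) (c := GG i j s)).1 le_rfl
  refine ⟨h.1.trans hs, ?_⟩
  rw [forall_HH]
  intro c' hc'
  obtain ⟨a, ha, h1⟩ := forall_HH.1 h.2 c' hc'
  exact ⟨a, by omega, h1⟩

/-! ## The set `Y` -/

/-- one step of the play, for a vector `g` of values -/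
def Act (g : ℕ → ℕ) (k : ℕ) : Prop :=
  (∃ j, j < k ∧ g k ≤ g j) ∧ ¬ ∃ j, j < k ∧ g k = g j ∧ ∃ j', j' < j ∧ g j ≤ g j'

/-- computable version at stage `s, b` -/
def act (i k s b : ℕ) : Bool :=
  (decide (∃ j, j < k ∧ decide (gg i k s b ≤ gg i j s b) = true)) &&
  !(decide (∃ j, j < k ∧ (decide (gg i k s b = gg i j s b) &&
    decide (∃ j', j' < j ∧ decide (gg i j s b ≤ gg i j' s b) = true)) = true))

theorem act_iff {i k s b : ℕ} : act i k s b = true ↔ Act (fun j => gg i j s b) k := by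
  unfold act Act
  simp

theorem comp_dle {α : Type} [Primcodable α] {f g : α → ℕ} (hf : Computable f)
    (hg : Computable g) : Computable (fun a => decide (f a ≤ g a)) := by
  have h : Computable (fun p : ℕ × ℕ => decide (p.1 ≤ p.2)) :=
    (PrimrecRel.comp (R := fun a b : ℕ => a ≤ b) Primrec.nat_le Primrec.fst
      Primrec.snd).decide.to_comp
  have h2 := h.comp (hf.pair hg)
  exact h2

theorem comp_deq {α : Type} [Primcodable α] {f g : α → ℕ} (hf : Computable f)
    (hg : Computable g) : Computable (fun a => decide (f a = g a)) := by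
  have h : Computable (fun p : ℕ × ℕ => decide (p.1 = p.2)) :=
    (PrimrecRel.comp (R := fun a b : ℕ => a = b) Primrec.eq Primrec.fst
      Primrec.snd).decide.to_comp
  have h2 := h.comp (hf.pair hg)
  exact h2

theorem comp_gg1 : Computable (fun t : (ℕ × ℕ × ℕ × ℕ) × ℕ =>
    gg t.1.1 t.1.2.1 t.1.2.2.1 t.1.2.2.2) := by
  have h0 : Computable (fun t : (ℕ × ℕ × ℕ × ℕ) × ℕ => t.1) := Computable.fst
  have h := comp_gg.comp h0
  exact h

theorem comp_gg2 : Computable (fun t : (ℕ × ℕ × ℕ × ℕ) × ℕ =>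
    gg t.1.1 t.2 t.1.2.2.1 t.1.2.2.2) := by
  have h0 : Computable (fun t : (ℕ × ℕ × ℕ × ℕ) × ℕ => (t.1.1, t.2, t.1.2.2)) :=
    (Computable.fst.comp Computable.fst).pair (Computable.snd.pair
      (Computable.snd.comp (Computable.snd.comp Computable.fst)))
  have h := comp_gg.comp h0
  exact h

theorem comp_act : Computable (fun q : ℕ × ℕ × ℕ × ℕ => act q.1 q.2.1 q.2.2.1 q.2.2.2) := by
  unfold act
  have hk : Computable (fun q : ℕ × ℕ × ℕ × ℕ => q.2.1) := Computable.fst.comp Computable.snd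
  refine comp_and ?_ (comp_not ?_)
  · refine comp_bex (f := fun (q : ℕ × ℕ × ℕ × ℕ) j =>
      decide (gg q.1 q.2.1 q.2.2.1 q.2.2.2 ≤ gg q.1 j q.2.2.1 q.2.2.2)) ?_ hk
    have h1 := comp_gg1
    have h2 := comp_gg2
    have h3 := comp_dle h1 h2
    exact h3.to₂
  · refine comp_bex (f := fun (q : ℕ × ℕ × ℕ × ℕ) j =>
      (decide (gg q.1 q.2.1 q.2.2.1 q.2.2.2 = gg q.1 j q.2.2.1 q.2.2.2) &&
    decide (∃ j', j' < j ∧ decide (gg q.1 j q.2.2.1 q.2.2.2 ≤ gg q.1 j' q.2.2.1 q.2.2.2) = true)))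
      ?_ hk
    have h1 := comp_gg1
    have h2 := comp_gg2
    have h3 : Computable (fun t : (ℕ × ℕ × ℕ × ℕ) × ℕ =>
        decide (gg t.1.1 t.1.2.1 t.1.2.2.1 t.1.2.2.2 = gg t.1.1 t.2 t.1.2.2.1 t.1.2.2.2)) :=
      comp_deq h1 h2
    have h4 : Computable (fun t : (ℕ × ℕ × ℕ × ℕ) × ℕ =>
        decide (∃ j', j' < t.2 ∧
          decide (gg t.1.1 t.2 t.1.2.2.1 t.1.2.2.2 ≤ gg t.1.1 j' t.1.2.2.1 t.1.2.2.2) = true)) := by
      refine comp_bex (f := fun (t : (ℕ × ℕ × ℕ × ℕ) × ℕ) j' =>
        decide (gg t.1.1 t.2 t.1.2.2.1 t.1.2.2.2 ≤ gg t.1.1 j' t.1.2.2.1 t.1.2.2.2)) ?_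
        Computable.snd
      have h50 : Computable (fun u : ((ℕ × ℕ × ℕ × ℕ) × ℕ) × ℕ => u.1) := Computable.fst
      have h5 : Computable (fun u : ((ℕ × ℕ × ℕ × ℕ) × ℕ) × ℕ =>
          gg u.1.1.1 u.1.2 u.1.1.2.2.1 u.1.1.2.2.2) := by
        have h := h2.comp h50
        exact h
      have h60 : Computable (fun u : ((ℕ × ℕ × ℕ × ℕ) × ℕ) × ℕ => (u.1.1.1, u.2, u.1.1.2.2)) :=
        (Computable.fst.comp (Computable.fst.comp Computable.fst)).pair
          (Computable.snd.pair (Computable.snd.comp (Computable.snd.comp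
            (Computable.fst.comp Computable.fst))))
      have h6 : Computable (fun u : ((ℕ × ℕ × ℕ × ℕ) × ℕ) × ℕ =>
          gg u.1.1.1 u.2 u.1.1.2.2.1 u.1.1.2.2.2) := by
        have h := comp_gg.comp h60
        exact h
      have h7 := comp_dle h5 h6
      exact h7.to₂
    have h8 := comp_and h3 h4
    exact h8.to₂

attribute [irreducible] act

/-- the `Σ⁰₃` set used in the converse -/
def YY : Set ℕ :=
  {x | ∃ t, ∀ u, ∃ d, act (Nat.unpair x).1 (Nat.unpair x).2 (t + (Nat.unpair u).1)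
    ((Nat.unpair u).2 + d) = false}

theorem sigma3_YY : Sigma3 YY := by
  refine ⟨fun q => !act (Nat.unpair q.1).1 (Nat.unpair q.1).2 (q.2.1 + (Nat.unpair q.2.2.1).1)
    ((Nat.unpair q.2.2.1).2 + q.2.2.2), comp_not ?_, fun x => ?_⟩
  · have h1 : Computable (fun q : ℕ × ℕ × ℕ × ℕ => Nat.unpair q.1) :=
      Computable.unpair.comp Computable.fst
    have h2 : Computable (fun q : ℕ × ℕ × ℕ × ℕ => Nat.unpair q.2.2.1) :=
      Computable.unpair.comp (Computable.fst.comp (Computable.snd.comp Computable.snd))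
    have h3 : Computable (fun q : ℕ × ℕ × ℕ × ℕ => q.2.1 + (Nat.unpair q.2.2.1).1) :=
      Primrec.nat_add.to_comp.comp (Computable.fst.comp Computable.snd) (Computable.fst.comp h2)
    have h4 : Computable (fun q : ℕ × ℕ × ℕ × ℕ => (Nat.unpair q.2.2.1).2 + q.2.2.2) :=
      Primrec.nat_add.to_comp.comp (Computable.snd.comp h2)
        (Computable.snd.comp (Computable.snd.comp Computable.snd))
    have h5 : Computable (fun q : ℕ × ℕ × ℕ × ℕ => ((Nat.unpair q.1).1, (Nat.unpair q.1).2,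
        q.2.1 + (Nat.unpair q.2.2.1).1, (Nat.unpair q.2.2.1).2 + q.2.2.2)) :=
      (Computable.fst.comp h1).pair ((Computable.snd.comp h1).pair (h3.pair h4))
    have h6 := comp_act.comp h5
    exact h6
  · simp only [Bool.not_eq_true']
    rfl

theorem Act_congr {g g' : ℕ → ℕ} {k : ℕ} (h : ∀ j, j ≤ k → g j = g' j) :
    Act g k ↔ Act g' k := by
  unfold Act
  have e1 : (∃ j, j < k ∧ g k ≤ g j) ↔ (∃ j, j < k ∧ g' k ≤ g' j) := by
    refine exists_congr fun j => and_congr_right fun hj => ?_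
    rw [h k le_rfl, h j hj.le]
  have e2 : (∃ j, j < k ∧ g k = g j ∧ ∃ j', j' < j ∧ g j ≤ g j') ↔
      (∃ j, j < k ∧ g' k = g' j ∧ ∃ j', j' < j ∧ g' j ≤ g' j') := by
    refine exists_congr fun j => and_congr_right fun hj => ?_
    rw [h k le_rfl, h j hj.le]
    refine and_congr_right fun _ => exists_congr fun j' => and_congr_right fun hj' => ?_
    rw [h j' (by omega)]
  rw [e1, e2]

theorem mem_YY {i k : ℕ} : Nat.pair i k ∈ YY ↔
    ∀ᶠ s in atTop, ¬ Act (fun j => GG i j s) k := by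
  have h1 : ∀ s, (∀ b, ∃ d, act i k s (b + d) = false) ↔ ¬ Act (fun j => GG i j s) k := by
    intro s
    have h2 : ∀ᶠ b in atTop, ∀ j ∈ Set.Iic k, gg i j s b = GG i j s :=
      (eventually_all_finite (Set.finite_Iic k)).2 fun j _ => GG_spec i j s
    obtain ⟨b0, hb0⟩ := eventually_atTop.1 h2
    have h3 : ∀ b, b0 ≤ b → (act i k s b = true ↔ Act (fun j => GG i j s) k) := by
      intro b hb
      rw [act_iff]
      exact Act_congr fun j hj => hb0 b hb j hj
    constructor
    · intro h4 h5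
      obtain ⟨d, hd⟩ := h4 b0
      rw [(h3 (b0 + d) (by omega)).2 h5] at hd
      exact absurd hd (by simp)
    · intro h4 b
      refine ⟨b0, ?_⟩
      have := mt (h3 (b + b0) (by omega)).1 h4
      simpa using this
  show (∃ t, ∀ u, ∃ d, act (Nat.unpair (Nat.pair i k)).1 (Nat.unpair (Nat.pair i k)).2
    (t + (Nat.unpair u).1) ((Nat.unpair u).2 + d) = false) ↔ _
  rw [Nat.unpair_pair, eventually_atTop]
  refine exists_congr fun t => ?_
  constructor
  · intro h s hs
    rw [← h1]
    intro b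
    have := h (Nat.pair (s - t) b)
    rw [Nat.unpair_pair] at this
    simpa [Nat.add_sub_cancel' hs] using this
  · intro h u
    exact (h1 _).2 (h _ (by omega)) _

theorem exists_max_of_bdd {g : ℕ → ℕ} (h : ∃ M, ∀ k, g k ≤ M) : ∃ k0, ∀ k, g k ≤ g k0 := by
  classical
  rcases Nat.eq_zero_or_pos (Nat.find h) with h0 | h0
  · refine ⟨0, fun k => ?_⟩
    have := Nat.find_spec h k
    rw [h0] at this
    omega
  · have h1 := Nat.find_min h (Nat.sub_lt h0 one_pos)
    push Not at h1
    obtain ⟨k0, hk0⟩ := h1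
    refine ⟨k0, fun k => ?_⟩
    have := Nat.find_spec h k
    omega

/-- **Converse.** If every `Σ⁰₃` set is in `Γ_C` then `C` is approachable. -/
theorem approachable_of_hard {C : Set ℕ} (h : ∀ Y, Sigma3 Y → Gam C Y) : Approachable C := by
  classical
  obtain ⟨E, hE0, -, hU, hdec, hXE⟩ := h YY sigma3_YY
  obtain ⟨i, hi⟩ := univ_VV hU
  have hanti : ∀ x c d, c ≤ d → x ∈ E d → x ∈ E c := by
    intro x c d hcd
    induction d, hcd using Nat.le_induction with
    | base => exact id
    | succ d _ ih => exact fun h => ih (hdec d h)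
  have hGG : ∀ k c, (∃ s, c ≤ GG i k s) ↔ Nat.pair i k ∈ E c := by
    intro k c
    rcases Nat.eq_zero_or_pos c with h0 | h0
    · subst h0
      rw [hE0]
      exact ⟨fun _ => Set.mem_univ _, fun _ => ⟨0, Nat.zero_le _⟩⟩
    · constructor
      · rintro ⟨s, hs⟩
        rw [le_GG, forall_HH] at hs
        obtain ⟨a, -, ha⟩ := hs.2 (c - 1) (by omega)
        rw [Nat.sub_add_cancel h0] at ha
        exact (hi _ _).2 ⟨a, ha⟩
      · intro hc
        have h1 : ∀ c', ∃ a, c' < c → ∀ b, VV i (c' + 1) (Nat.pair i k) a b = true := by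
          intro c'
          by_cases hc' : c' < c
          · obtain ⟨a, ha⟩ := (hi _ _).1 (hanti _ (c' + 1) c hc' hc)
            exact ⟨a, fun _ => ha⟩
          · exact ⟨0, fun h => absurd h hc'⟩
        choose α hα using h1
        refine ⟨max c ((Finset.range c).sup α), ?_⟩
        rw [le_GG, forall_HH]
        refine ⟨le_max_left _ _, fun c' hc' => ⟨α c', ?_, hα c' hc'⟩⟩
        have h2 : α c' ≤ (Finset.range c).sup α := Finset.le_sup (Finset.mem_range.2 hc')
        have h3 := le_max_right c ((Finset.range c).sup α)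
        omega
  have hev : ∀ k c, Nat.pair i k ∈ E c → ∀ᶠ s in atTop, c ≤ GG i k s := by
    intro k c hc
    obtain ⟨s0, hs0⟩ := (hGG k c).2 hc
    exact eventually_atTop.2 ⟨s0, fun s hs => hs0.trans (GG_mono hs)⟩
  have hevv : ∀ k c, Nat.pair i k ∈ E c → Nat.pair i k ∉ E (c + 1) →
      ∀ᶠ s in atTop, GG i k s = c := by
    intro k c hc hc'
    refine (hev k c hc).mono fun s hs => le_antisymm ?_ hs
    by_contra hcon
    exact hc' ((hGG k (c + 1)).1 ⟨s, by omega⟩)
  -- values
  let g : ℕ → ℕ := fun k =>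
    if h : ∃ c, Nat.pair i k ∈ E c ∧ Nat.pair i k ∉ E (c + 1) then h.choose else 0
  have hg : ∀ k, (∃ c, Nat.pair i k ∈ E c ∧ Nat.pair i k ∉ E (c + 1)) →
      Nat.pair i k ∈ E (g k) ∧ Nat.pair i k ∉ E (g k + 1) := by
    intro k hk
    have : g k = hk.choose := dif_pos hk
    rw [this]
    exact hk.choose_spec
  have huniq : ∀ k c d, Nat.pair i k ∈ E c → Nat.pair i k ∉ E (c + 1) →
      Nat.pair i k ∈ E d → Nat.pair i k ∉ E (d + 1) → d = c := by
    intro k c d hc hc' hd hd'
    by_contra hne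
    rcases Nat.lt_or_gt_of_ne hne with h | h
    · exact hd' (hanti _ _ _ h hc)
    · exact hc' (hanti _ _ _ h hd)
  have main : ∀ k, (Nat.pair i k ∈ E (g k) ∧ Nat.pair i k ∉ E (g k + 1)) ∧
      (g k ∈ C ↔ ¬ Act g k) ∧ (g k ∈ C ↔ ∀ j, j < k → g j < g k) := by
    intro k
    induction k using Nat.strong_induction_on with
    | _ k ih =>
    have hval : Nat.pair i k ∈ E (g k) ∧ Nat.pair i k ∉ E (g k + 1) := by
      apply hg
      by_contra hcon
      push Not at hcon
      have hall : ∀ c, Nat.pair i k ∈ E c := by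
        intro c
        induction c with
        | zero => rw [hE0]; exact Set.mem_univ _
        | succ c ih => exact hcon c ih
      have h1 : ∀ᶠ s in atTop, ∀ j ∈ Set.Iio k, GG i j s = g j :=
        (eventually_all_finite (Set.finite_Iio k)).2 fun j hj =>
          hevv j (g j) (ih j hj).1.1 (ih j hj).1.2
      have h2 := hev k ((Finset.range k).sup g + 1) (hall _)
      have h3 : Nat.pair i k ∈ YY := by
        rw [mem_YY]
        refine (h1.and h2).mono fun s hs => ?_
        rintro ⟨⟨j, hj, hle⟩, -⟩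
        have h4 := hs.1 j hj
        have h5 : g j ≤ (Finset.range k).sup g := Finset.le_sup (Finset.mem_range.2 hj)
        have h6 := hs.2
        simp only at hle
        omega
      obtain ⟨c, -, -, h5⟩ := (hXE _).1 h3
      exact h5 (hall _)
    have h1 : ∀ᶠ s in atTop, ∀ j ∈ Set.Iic k, GG i j s = g j :=
      (eventually_all_finite (Set.finite_Iic k)).2 fun j hj => by
        rcases Nat.lt_or_eq_of_le (Set.mem_Iic.1 hj) with h | h
        · exact hevv j (g j) (ih j h).1.1 (ih j h).1.2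
        · subst h
          exact hevv _ _ hval.1 hval.2
    have h2 : Nat.pair i k ∈ YY ↔ ¬ Act g k := by
      rw [mem_YY]
      constructor
      · intro h3
        obtain ⟨s, hs1, hs2⟩ := (h1.and h3).exists
        rwa [Act_congr (g' := g) (fun j hj => hs1 j hj)] at hs2
      · intro h3
        refine h1.mono fun s hs => ?_
        rwa [Act_congr (g' := g) (fun j hj => hs j hj)]
    have h3 : Nat.pair i k ∈ YY ↔ g k ∈ C := by
      rw [hXE]
      constructor
      · rintro ⟨c, hc, h4, h5⟩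
        rwa [huniq k (g k) c hval.1 hval.2 h4 h5] at hc
      · intro h4
        exact ⟨g k, h4, hval.1, hval.2⟩
    have h4 : g k ∈ C ↔ ¬ Act g k := h3.symm.trans h2
    refine ⟨hval, h4, ?_⟩
    constructor
    · intro h5
      have h6 := h4.1 h5
      by_contra hcon
      push Not at hcon
      obtain ⟨j, hj, hle⟩ := hcon
      have h7 : ∃ j, j < k ∧ g k = g j ∧ ∃ j', j' < j ∧ g j ≤ g j' := by
        by_contra h8
        exact h6 ⟨⟨j, hj, hle⟩, h8⟩
      obtain ⟨j1, hj1, he, j', hj', hle'⟩ := h7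
      rw [he, (ih j1 hj1).2.2] at h5
      have := h5 j' hj'
      omega
    · intro h5
      rw [h4]
      rintro ⟨⟨j, hj, hle⟩, -⟩
      have := h5 j hj
      omega
  -- unboundedness
  have hun : ∀ n, ∃ k, n ≤ g k := by
    intro n
    by_contra hcon
    push Not at hcon
    obtain ⟨k0, hk0⟩ := exists_max_of_bdd ⟨n, fun k => (hcon k).le⟩
    have hinj : Function.Injective (fun m => g (k0 + 1 + m)) := by
      have key : ∀ a b, a < b → g (k0 + 1 + a) ≠ g (k0 + 1 + b) := by
        intro a b hab he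
        have h1 : g (k0 + 1 + b) ∉ C := by
          rw [(main _).2.2]
          intro h2
          have := h2 k0 (by omega)
          have := hk0 (k0 + 1 + b)
          omega
        have h2 : Act g (k0 + 1 + b) := by
          by_contra h3
          exact h1 ((main _).2.1.2 h3)
        exact h2.2 ⟨k0 + 1 + a, by omega, he.symm, k0, by omega, hk0 _⟩
      intro a b hab
      rcases Nat.lt_trichotomy a b with h1 | h1 | h1
      · exact absurd hab (key a b h1)
      · exact h1
      · exact absurd hab.symm (key b a h1)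
    have h1 := Set.infinite_range_of_injective hinj
    refine h1 ((Set.finite_Iio n).subset ?_)
    rintro _ ⟨m, rfl⟩
    exact hcon _
  refine ⟨fun k => (Finset.range (k + 1)).sup g, ?_, ?_, ?_⟩
  · have h1 : S2 (fun r : (ℕ × ℕ) × ℕ => decide (r.2 ≤ r.1.1) = true) :=
      S2.of_computable (PrimrecRel.comp (R := fun a b : ℕ => a ≤ b) Primrec.nat_le Primrec.snd
        (Primrec.fst.comp Primrec.fst)).decide.to_comp
    have h2 : S2 (fun r : (ℕ × ℕ) × ℕ => Nat.pair i r.2 ∈ E r.1.2) :=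
      S2.comp hU (f := fun r : (ℕ × ℕ) × ℕ => (r.1.2, Nat.pair i r.2))
        ((Computable.snd.comp Computable.fst).pair
          (Primrec₂.natPair.to_comp.comp (Computable.const i) Computable.snd))
    refine (S2.ex (S2.and h1 h2)).of_iff fun q => ?_
    simp only [decide_eq_true_eq]
    have hle : ∀ j c, Nat.pair i j ∈ E c ↔ c ≤ g j := by
      intro j c
      constructor
      · intro hc
        by_contra hcon
        exact (main j).1.2 (hanti _ _ _ (by omega) hc)
      · intro hc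
        exact hanti _ _ _ hc (main j).1.1
    constructor
    · intro h3
      obtain ⟨j, hj, hmax⟩ := Finset.exists_max_image (Finset.range (q.1 + 1)) g ⟨0, by simp⟩
      refine ⟨j, Nat.lt_succ_iff.1 (Finset.mem_range.1 hj), (hle j q.2).2 (h3.trans ?_)⟩
      exact Finset.sup_le hmax
    · rintro ⟨j, hj, h3⟩
      exact ((hle j q.2).1 h3).trans (Finset.le_sup (Finset.mem_range.2 (Nat.lt_succ_of_le hj)))
  · intro k
    obtain ⟨j, hj, hmax⟩ := Finset.exists_max_image (Finset.range (k + 1)) g ⟨0, by simp⟩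
    have hex : ∃ j', g j' = g j := ⟨j, rfl⟩
    have h1 : Nat.find hex ≤ j := Nat.find_min' hex rfl
    have h2 : g (Nat.find hex) = g j := Nat.find_spec hex
    have h3 : (Finset.range (k + 1)).sup g = g (Nat.find hex) := by
      rw [h2]
      exact le_antisymm (Finset.sup_le hmax) (Finset.le_sup hj)
    show (Finset.range (k + 1)).sup g ∈ C
    rw [h3, (main _).2.2]
    intro j' hj'
    have h4 := Nat.find_min hex hj'
    have h5 : g j' ≤ g j := hmax j' (by
      rw [Finset.mem_range] at hj ⊢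
      omega)
    rw [h2]
    omega
  · intro n
    obtain ⟨k, hk⟩ := hun n
    exact ⟨k, hk.trans (Finset.le_sup (Finset.mem_range.2 (Nat.lt_succ_self k)))⟩

/-! ## Closure under reductions and the final characterization -/

theorem Gam.comap {C X Y : Set ℕ} (hX : Gam C X)
    (h : ManyOneReducible (fun y => y ∈ Y) (fun x => x ∈ X)) : Gam C Y := by
  obtain ⟨f, hf, hfY⟩ := h
  obtain ⟨E, hE0, ⟨R1, hR1, h1⟩, hU, hdec, hXE⟩ := hX
  refine ⟨fun c => {y | f y ∈ E c}, ?_, ?_, ?_, ?_, ?_⟩
  · ext y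
    simp [hE0]
  · exact ⟨fun q => R1 (f q.1, q.2), hR1.comp ((hf.comp Computable.fst).pair Computable.snd),
      fun y => h1 (f y)⟩
  · exact S2.comp hU (f := fun q : ℕ × ℕ => (q.1, f q.2))
      (Computable.fst.pair (hf.comp Computable.snd))
  · exact fun c y hy => hdec c hy
  · exact fun y => (hfY y).trans (hXE (f y))

theorem Sigma3.comap {X Y : Set ℕ} (hX : Sigma3 X)
    (h : ManyOneReducible (fun y => y ∈ Y) (fun x => x ∈ X)) : Sigma3 Y := by
  obtain ⟨f, hf, hfY⟩ := h
  obtain ⟨R, hR, hXR⟩ := hX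
  exact ⟨fun q => R (f q.1, q.2), hR.comp ((hf.comp Computable.fst).pair Computable.snd),
    fun y => (hfY y).trans (hXR (f y))⟩

/-- `C` itself is in `Γ_C` -/
theorem self_Gam (C : Set ℕ) : Gam C C := by
  have h1 : Computable (fun q : ℕ × ℕ => decide (q.1 ≤ q.2)) :=
    (PrimrecRel.comp (R := fun a b : ℕ => a ≤ b) Primrec.nat_le Primrec.fst
      Primrec.snd).decide.to_comp
  refine ⟨fun c => {x | c ≤ x}, ?_, ?_, ?_, ?_, ?_⟩
  · ext x
    simp
  · refine ⟨fun q => decide (1 ≤ q.1), (PrimrecRel.comp (R := fun a b : ℕ => a ≤ b)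
      Primrec.nat_le (Primrec.const 1) Primrec.fst).decide.to_comp, fun x => ?_⟩
    simp
  · refine (S2.of_computable h1).of_iff fun q => ?_
    simp
  · intro c x hx
    exact le_trans (Nat.le_succ c) hx
  · intro x
    constructor
    · intro hx
      exact ⟨x, hx, show x ≤ x from le_rfl, by simp⟩
    · rintro ⟨c, hc, h2, h3⟩
      have : c = x := by
        simp only [Set.mem_ofPred_eq] at h2 h3
        omega
      rwa [← this]

/-- `C ≤_m I_C` for every `C` -/
theorem self_reduces {π : ℕ → ℕ → Bool} (hπ : EffEnum π) (C : Set ℕ) :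
    ManyOneReducible (fun x => x ∈ C) (fun e => e ∈ I π C) :=
  (I_complete hπ C).2 C (self_Gam C)

/-- `I_C` is `Σ⁰₃`-hard iff `C` is approachable -/
theorem hard_iff {π : ℕ → ℕ → Bool} (hπ : EffEnum π) (C : Set ℕ) :
    (∀ Y, Sigma3 Y → ManyOneReducible (fun x => x ∈ Y) (fun e => e ∈ I π C)) ↔
      Approachable C :=
  ⟨fun h => approachable_of_hard fun Y hY => (I_complete hπ C).1.comap (h Y hY),
    fun h Y hY => (I_complete hπ C).2 Y (sigma3_Gam h hY)⟩

theorem complete_iff {π : ℕ → ℕ → Bool} (hπ : EffEnum π) (C : Set ℕ) :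
    Complete Sigma3 (I π C) ↔ Sigma3 C ∧ Approachable C :=
  ⟨fun h => ⟨h.1.comap (self_reduces hπ C), (hard_iff hπ C).1 h.2⟩,
    fun h => sigma3_complete hπ h.1 h.2⟩

end Pool.R534.IC
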