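import Mathlib

/-!
# Index sets of `Π⁰₁` classes: definitions
-/

namespace Pool.R534.IC

open Encodable

/-! ## Trees, classes and index sets -/

/-- `π` is an effective enumeration of the primitive recursive functions from (codes of) finite
sequences to `{0,1}` (a Gödel numbering): `π` is computable as a function of both arguments, every
row is primitive recursive, and every uniformly primitive recursive sequence of such functions
(so in particular every single one) is enumerated, with indices that can be computed. -/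
structure EffEnum (π : ℕ → ℕ → Bool) : Prop where
  computable : Computable₂ π
  row : ∀ e, Primrec (π e)
  smn : ∀ F : ℕ → ℕ → Bool, Primrec₂ F → ∃ f : ℕ → ℕ, Computable f ∧ ∀ x, π (f x) = F x

/-- The tree `U_e ⊆ ω^{<ω}`. -/
def Tree (π : ℕ → ℕ → Bool) (e : ℕ) : Set (List ℕ) :=
  {σ | ∀ τ, τ <+: σ → π e (encode τ) = true}

/-- The class `P_e = [U_e]`: the infinite sequences all of whose initial segments are in `U_e`. -/
def Cls (π : ℕ → ℕ → Bool) (e : ℕ) : Set (ℕ → ℕ) :=
  {f | ∀ n, (List.range n).map f ∈ Tree π e}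

/-- `P_e ∩ 2^ω`. -/
def Q (π : ℕ → ℕ → Bool) (e : ℕ) : Set (ℕ → ℕ) :=
  {f | f ∈ Cls π e ∧ ∀ n, f n < 2}

/-- The index set `I_C`. -/
def I (π : ℕ → ℕ → Bool) (C : Set ℕ) : Set ℕ :=
  {e | (Q π e).Finite ∧ (Q π e).ncard ∈ C}

/-! ## Arithmetical classes -/

/-- `p` is `Σ⁰₂`. -/
def S2 {α : Type} [Primcodable α] (p : α → Prop) : Prop :=
  ∃ R : α × ℕ × ℕ → Bool, Computable R ∧ ∀ x, p x ↔ ∃ a, ∀ b, R (x, a, b) = true

/-- `X` is `Σ⁰₁`. -/
def Sigma1 (X : Set ℕ) : Prop :=
  ∃ R : ℕ × ℕ → Bool, Computable R ∧ ∀ x, x ∈ X ↔ ∃ a, R (x, a) = true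

/-- `X` is `Π⁰₁`. -/
def Pi1 (X : Set ℕ) : Prop :=
  ∃ R : ℕ × ℕ → Bool, Computable R ∧ ∀ x, x ∈ X ↔ ∀ b, R (x, b) = true

/-- `X` is `Σ⁰₂`. -/
def Sigma2 (X : Set ℕ) : Prop :=
  ∃ R : ℕ × ℕ × ℕ → Bool, Computable R ∧ ∀ x, x ∈ X ↔ ∃ a, ∀ b, R (x, a, b) = true

/-- `X` is `Π⁰₂`. -/
def Pi2 (X : Set ℕ) : Prop :=
  ∃ R : ℕ × ℕ × ℕ → Bool, Computable R ∧ ∀ x, x ∈ X ↔ ∀ a, ∃ b, R (x, a, b) = true

/-- `X` is `Σ⁰₃`. -/
def Sigma3 (X : Set ℕ) : Prop :=
  ∃ R : ℕ × ℕ × ℕ × ℕ → Bool, Computable R ∧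
    ∀ x, x ∈ X ↔ ∃ a, ∀ b, ∃ c, R (x, a, b, c) = true

/-- The sequence `E` of sets is uniformly `Σ⁰₂`. -/
def USigma2 (E : ℕ → Set ℕ) : Prop :=
  S2 (fun q : ℕ × ℕ => q.2 ∈ E q.1)

/-- The `n`-th level of the (finite) difference hierarchy over the `Σ⁰₂` sets:
`X = (A₀ \ A₁) ∪ (A₂ \ A₃) ∪ ...` for a decreasing sequence of `Σ⁰₂` sets `A₀ ⊇ ... ⊇ A_{n-1}`
(and `A_n = ∅`).  Level `1` is `Σ⁰₂`, level `2` is `D⁰₂`. -/
def DSigma2 (n : ℕ) (X : Set ℕ) : Prop :=
  ∃ A : ℕ → Set ℕ, (∀ i, Sigma2 (A i)) ∧ (∀ i, A (i + 1) ⊆ A i) ∧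
    ∀ x, x ∈ X ↔ ∃ i, i < n ∧ Even i ∧ x ∈ A i ∧ (i + 1 < n → x ∉ A (i + 1))

/-- The dual class: complements of sets in level `n`. -/
def CoDSigma2 (n : ℕ) (X : Set ℕ) : Prop := DSigma2 n Xᶜ

/-- The class `Γ_C` of an arbitrary `C ⊆ ω`: the sets `X = ⋃_{c ∈ C} (E_c \ E_{c+1})` for a
decreasing uniformly `Σ⁰₂` sequence `ω = E₀ ⊇ E₁ ⊇ E₂ ⊇ ...` whose term `E₁` is `Π⁰₁`. -/
def Gam (C : Set ℕ) (X : Set ℕ) : Prop :=
  ∃ E : ℕ → Set ℕ, E 0 = Set.univ ∧ Pi1 (E 1) ∧ USigma2 E ∧ (∀ c, E (c + 1) ⊆ E c) ∧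
    ∀ x, x ∈ X ↔ ∃ c ∈ C, x ∈ E c ∧ x ∉ E (c + 1)

/-- `X` is `Γ`-complete (for many-one reducibility). -/
def Complete (Γ : Set ℕ → Prop) (X : Set ℕ) : Prop :=
  Γ X ∧ ∀ Y, Γ Y → ManyOneReducible (fun x => x ∈ Y) (fun x => x ∈ X)

/-- The set of places `k ≥ 1` where membership in `C` changes from `k` to `k + 1`. -/
def Changes (C : Set ℕ) : Set ℕ := {k | 1 ≤ k ∧ ¬ (k ∈ C ↔ k + 1 ∈ C)}

/-- The condition on `C` that characterizes `Σ⁰₃`-hardness of `I_C`: `C` contains an unbounded
sequence `v` of numbers which is approximable from below with a `0'`-oracle, i.e. whose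
subgraph `{(i, c) : c ≤ v i}` is `Σ⁰₂`. -/
def Approachable (C : Set ℕ) : Prop :=
  ∃ v : ℕ → ℕ, S2 (fun q : ℕ × ℕ => q.2 ≤ v q.1) ∧ (∀ i, v i ∈ C) ∧ ∀ n, ∃ i, n ≤ v i

/-! ## Basic closure properties -/

theorem comp_ball {α : Type} [Primcodable α] {f : α → ℕ → Bool} {n : α → ℕ}
    (hf : Computable₂ f) (hn : Computable n) :
    Computable (fun a => decide (∀ i, i < n a → f a i = true)) := by
  have h : Computable (fun a => Nat.rec (motive := fun _ => Bool) true
      (fun i r => (f a i && r)) (n a)) := by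
    refine Computable.nat_rec (h := fun a (p : ℕ × Bool) => (f a p.1 && p.2)) hn
      (Computable.const true) ?_
    have h1 : Computable (fun q : α × (ℕ × Bool) => cond (f q.1 q.2.1) q.2.2 false) :=
      Computable.cond (hf.comp Computable.fst (Computable.fst.comp Computable.snd))
        (Computable.snd.comp Computable.snd) (Computable.const false)
    have h2 : Computable (fun q : α × (ℕ × Bool) => (f q.1 q.2.1 && q.2.2)) :=
      h1.of_eq (fun q => by cases f q.1 q.2.1 <;> rfl)
    exact h2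
  refine h.of_eq fun a => ?_
  generalize n a = m
  induction m with
  | zero => simp
  | succ m ih =>
    show (f a m && _) = _
    rw [ih]
    rw [Bool.eq_iff_iff]
    simp only [Bool.and_eq_true, decide_eq_true_eq]
    constructor
    · rintro ⟨h1, h2⟩ i hi
      rcases Nat.lt_succ_iff_lt_or_eq.1 hi with h3 | h3
      · exact h2 i h3
      · rw [h3]; exact h1
    · intro h1
      exact ⟨h1 m (Nat.lt_succ_self m), fun i hi => h1 i (Nat.lt_succ_of_lt hi)⟩

theorem comp_not {α : Type} [Primcodable α] {f : α → Bool} (hf : Computable f) :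
    Computable (fun a => !f a) :=
  (Computable.cond hf (Computable.const false) (Computable.const true)).of_eq
    (fun a => by cases f a <;> rfl)

theorem comp_and {α : Type} [Primcodable α] {f g : α → Bool} (hf : Computable f)
    (hg : Computable g) : Computable (fun a => f a && g a) :=
  (Computable.cond hf hg (Computable.const false)).of_eq
    (fun a => by cases f a <;> rfl)

theorem comp_or {α : Type} [Primcodable α] {f g : α → Bool} (hf : Computable f)
    (hg : Computable g) : Computable (fun a => f a || g a) :=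
  (Computable.cond hf (Computable.const true) hg).of_eq
    (fun a => by cases f a <;> rfl)

theorem comp_bex {α : Type} [Primcodable α] {f : α → ℕ → Bool} {n : α → ℕ}
    (hf : Computable₂ f) (hn : Computable n) :
    Computable (fun a => decide (∃ i, i < n a ∧ f a i = true)) := by
  have h : Computable₂ (fun a i => !f a i) := comp_not hf
  refine (comp_not (comp_ball h hn)).of_eq fun a => ?_
  rw [Bool.eq_iff_iff]
  simp

theorem S2.comp {α β : Type} [Primcodable α] [Primcodable β] {p : β → Prop} (hp : S2 p)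
    {f : α → β} (hf : Computable f) : S2 (fun a => p (f a)) := by
  obtain ⟨R, hR, h⟩ := hp
  exact ⟨fun q => R (f q.1, q.2), hR.comp ((hf.comp Computable.fst).pair Computable.snd),
    fun x => h (f x)⟩

theorem S2.of_iff {α : Type} [Primcodable α] {p q : α → Prop} (hp : S2 p)
    (h : ∀ x, q x ↔ p x) : S2 q := by
  obtain ⟨R, hR, h'⟩ := hp
  exact ⟨R, hR, fun x => (h x).trans (h' x)⟩

theorem S2.of_computable {α : Type} [Primcodable α] {f : α → Bool} (hf : Computable f) :
    S2 (fun a => f a = true) :=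
  ⟨fun q => f q.1, hf.comp Computable.fst, fun x => by simp⟩

theorem S2.or {α : Type} [Primcodable α] {p q : α → Prop} (hp : S2 p) (hq : S2 q) :
    S2 (fun a => p a ∨ q a) := by
  obtain ⟨R, hR, h⟩ := hp
  obtain ⟨R', hR', h'⟩ := hq
  refine ⟨fun t => cond (Nat.bodd t.2.1) (R (t.1, Nat.div2 t.2.1, t.2.2))
    (R' (t.1, Nat.div2 t.2.1, t.2.2)), ?_, ?_⟩
  · have h1 : Computable (fun t : α × ℕ × ℕ => Nat.div2 t.2.1) :=
      Computable.nat_div2.comp (Computable.fst.comp Computable.snd)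
    have h2 : Computable (fun t : α × ℕ × ℕ => (t.1, Nat.div2 t.2.1, t.2.2)) :=
      Computable.fst.pair (h1.pair (Computable.snd.comp Computable.snd))
    exact Computable.cond (Computable.nat_bodd.comp (Computable.fst.comp Computable.snd))
      (hR.comp h2) (hR'.comp h2)
  · intro x
    show p x ∨ q x ↔ _
    rw [h x, h' x]
    constructor
    · rintro (⟨a, ha⟩ | ⟨a, ha⟩)
      · exact ⟨2 * a + 1, fun b => by simpa using ha b⟩
      · exact ⟨2 * a, fun b => by simpa using ha b⟩
    · rintro ⟨a, ha⟩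
      cases hb : Nat.bodd a with
      | true => exact Or.inl ⟨Nat.div2 a, fun b => by simpa [hb] using ha b⟩
      | false => exact Or.inr ⟨Nat.div2 a, fun b => by simpa [hb] using ha b⟩

theorem S2.and {α : Type} [Primcodable α] {p q : α → Prop} (hp : S2 p) (hq : S2 q) :
    S2 (fun a => p a ∧ q a) := by
  obtain ⟨R, hR, h⟩ := hp
  obtain ⟨R', hR', h'⟩ := hq
  refine ⟨fun t => R (t.1, (Nat.unpair t.2.1).1, t.2.2) &&
    R' (t.1, (Nat.unpair t.2.1).2, t.2.2), ?_, ?_⟩
  · have h1 : Computable (fun t : α × ℕ × ℕ => Nat.unpair t.2.1) :=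
      Computable.unpair.comp (Computable.fst.comp Computable.snd)
    exact comp_and
      (hR.comp (Computable.fst.pair ((Computable.fst.comp h1).pair
        (Computable.snd.comp Computable.snd))))
      (hR'.comp (Computable.fst.pair ((Computable.snd.comp h1).pair
        (Computable.snd.comp Computable.snd))))
  · intro x
    show p x ∧ q x ↔ _
    rw [h x, h' x]
    constructor
    · rintro ⟨⟨a, ha⟩, a', ha'⟩
      exact ⟨Nat.pair a a', fun b => by simp [ha b, ha' b]⟩
    · rintro ⟨a, ha⟩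
      refine ⟨⟨(Nat.unpair a).1, fun b => ?_⟩, (Nat.unpair a).2, fun b => ?_⟩
      · have := ha b
        simp only [Bool.and_eq_true] at this
        exact this.1
      · have := ha b
        simp only [Bool.and_eq_true] at this
        exact this.2

/-- bounded universal quantification preserves `Σ⁰₂` -/
theorem S2.ball {α : Type} [Primcodable α] {p : α × ℕ → Prop} (hp : S2 p) {n : α → ℕ}
    (hn : Computable n) : S2 (fun a => ∀ i, i < n a → p (a, i)) := by
  obtain ⟨R, hR, h⟩ := hp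
  refine ⟨fun t => decide (∀ i, i < n t.1 →
    R ((t.1, i), (Denumerable.ofNat (List ℕ) t.2.1).getD i 0, t.2.2) = true), ?_, ?_⟩
  · refine comp_ball (f := fun (t : α × ℕ × ℕ) i =>
      R ((t.1, i), (Denumerable.ofNat (List ℕ) t.2.1).getD i 0, t.2.2)) ?_
      (hn.comp Computable.fst)
    have h1 : Computable (fun s : (α × ℕ × ℕ) × ℕ =>
        (Denumerable.ofNat (List ℕ) s.1.2.1).getD s.2 0) := by
      have h2 : Computable (fun s : (α × ℕ × ℕ) × ℕ => Denumerable.ofNat (List ℕ) s.1.2.1) :=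
        (Computable.ofNat (List ℕ)).comp
          (Computable.fst.comp (Computable.snd.comp Computable.fst))
      exact (Primrec.list_getD (0 : ℕ)).to_comp.comp h2 Computable.snd
    exact (hR.comp (((Computable.fst.comp Computable.fst).pair Computable.snd).pair
      (h1.pair (Computable.snd.comp (Computable.snd.comp Computable.fst))))).to₂
  · intro x
    constructor
    · intro hx
      have h3 : ∀ i, ∃ a, i < n x → ∀ b, R ((x, i), a, b) = true := by
        intro i
        by_cases hi : i < n x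
        · obtain ⟨a, ha⟩ := (h (x, i)).1 (hx i hi)
          exact ⟨a, fun _ => ha⟩
        · exact ⟨0, fun h => absurd h hi⟩
      choose g hg using h3
      refine ⟨encode ((List.range (n x)).map g), fun b => ?_⟩
      rw [decide_eq_true_eq]
      intro i hi
      rw [Denumerable.ofNat_encode]
      have : ((List.range (n x)).map g).getD i 0 = g i := by
        simp [List.getD, hi]
      rw [this]
      exact hg i hi b
    · rintro ⟨a, ha⟩ i hi
      rw [h (x, i)]
      refine ⟨(Denumerable.ofNat (List ℕ) a).getD i 0, fun b => ?_⟩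
      have := ha b
      rw [decide_eq_true_eq] at this
      exact this i hi

theorem sigma2_iff (X : Set ℕ) : Sigma2 X ↔ S2 (fun x => x ∈ X) := Iff.rfl

theorem pi2_iff (X : Set ℕ) : Pi2 X ↔ S2 (fun x => x ∉ X) := by
  constructor
  · rintro ⟨R, hR, h⟩
    refine ⟨fun q => !R q, comp_not hR, fun x => ?_⟩
    show ¬ (x ∈ X) ↔ _
    rw [h x]
    push Not
    simp
  · rintro ⟨R, hR, h⟩
    refine ⟨fun q => !R q, comp_not hR, fun x => ?_⟩
    have := h x
    rw [← not_iff_not, not_not] at this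
    rw [this]
    push Not
    simp

end Pool.R534.IC
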