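import Pool.Agent.R534.IC.Upper2

/-!
# Lower bound: every set in `Γ_C` is many-one reducible to `I_C`
-/

namespace Pool.R534.IC

open Encodable

theorem prim_ball {α : Type} [Primcodable α] {f : α → ℕ → Bool} {n : α → ℕ}
    (hf : Primrec₂ f) (hn : Primrec n) :
    Primrec (fun a => decide (∀ i, i < n a → f a i = true)) := by
  have h : Primrec (fun a => Nat.rec (motive := fun _ => Bool) true
      (fun i r => (f a i && r)) (n a)) := by
    refine Primrec.nat_rec' (h := fun a (p : ℕ × Bool) => (f a p.1 && p.2)) hn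
      (Primrec.const true) ?_
    exact Primrec.and.comp (hf.comp Primrec.fst (Primrec.fst.comp Primrec.snd))
      (Primrec.snd.comp Primrec.snd)
  refine h.of_eq fun a => ?_
  generalize n a = m
  induction m with
  | zero => simp
  | succ m ih =>
    show (f a m && _) = _
    rw [ih]
    rw [Bool.eq_iff_iff]
    simp only [Bool.and_eq_true, decide_eq_true_eq]
    constructor
    · rintro ⟨h1, h2⟩ i hi
      rcases Nat.lt_succ_iff_lt_or_eq.1 hi with h3 | h3
      · exact h2 i h3
      · rw [h3]; exact h1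
    · intro h1
      exact ⟨h1 m (Nat.lt_succ_self m), fun i hi => h1 i (Nat.lt_succ_of_lt hi)⟩

theorem prim_bex {α : Type} [Primcodable α] {f : α → ℕ → Bool} {n : α → ℕ}
    (hf : Primrec₂ f) (hn : Primrec n) :
    Primrec (fun a => decide (∃ i, i < n a ∧ f a i = true)) := by
  have h : Primrec₂ (fun a i => !f a i) := Primrec.not.comp hf
  refine (Primrec.not.comp (prim_ball h hn)).of_eq fun a => ?_
  rw [Bool.eq_iff_iff]
  simp

/-- Approximating a `Π⁰₁` condition by a decreasing primitive recursive sequence. -/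
theorem exists_stage {g : ℕ → Bool} (hg : Computable g) :
    ∃ S : ℕ → ℕ → Bool, Primrec₂ S ∧ (∀ z s s', s ≤ s' → S z s' = true → S z s = true) ∧
      ∀ z, (∀ s, S z s = true) ↔ ∀ b, g (Nat.pair z b) = true := by
  have h1 : Computable (fun n => encode (g n)) := Computable.encode.comp hg
  obtain ⟨c, hc⟩ := Nat.Partrec.Code.exists_code.1 (Partrec.nat_iff.1 h1)
  refine ⟨fun z s => decide (∀ b, b < s →
    (!decide (Nat.Partrec.Code.evaln s c (Nat.pair z b) = some 0)) = true), ?_, ?_, ?_⟩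
  · refine prim_ball (α := ℕ × ℕ) (f := fun p b =>
      !decide (Nat.Partrec.Code.evaln p.2 c (Nat.pair p.1 b) = some 0)) (n := fun p => p.2) ?_
      Primrec.snd
    have h2 : Primrec (fun q : (ℕ × ℕ) × ℕ =>
        Nat.Partrec.Code.evaln q.1.2 c (Nat.pair q.1.1 q.2)) := by
      have h3 : Primrec (fun q : (ℕ × ℕ) × ℕ => ((q.1.2, c), Nat.pair q.1.1 q.2)) :=
        ((Primrec.snd.comp Primrec.fst).pair (Primrec.const c)).pair
          (Primrec₂.natPair.comp (Primrec.fst.comp Primrec.fst) Primrec.snd)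
      exact Nat.Partrec.Code.primrec_evaln.comp h3
    have h4 : Primrec (fun q : (ℕ × ℕ) × ℕ =>
        decide (Nat.Partrec.Code.evaln q.1.2 c (Nat.pair q.1.1 q.2) = some 0)) :=
      (PrimrecRel.comp (R := fun a b : Option ℕ => a = b) Primrec.eq h2
        (Primrec.const (some 0))).decide
    exact Primrec.not.comp h4
  · intro z s s' hss h
    rw [decide_eq_true_eq] at h ⊢
    intro b hb
    have h5 := h b (lt_of_lt_of_le hb hss)
    simp only [Bool.not_eq_true', decide_eq_false_iff_not] at h5 ⊢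
    intro h6
    exact h5 (Nat.Partrec.Code.evaln_mono hss h6)
  · intro z
    have hev : ∀ n, Nat.Partrec.Code.eval c n = Part.some (encode (g n)) := fun n => by
      rw [hc]; rfl
    constructor
    · intro h b
      by_contra hb
      have hb' : g (Nat.pair z b) = false := by simpa using hb
      have h6 : 0 ∈ Nat.Partrec.Code.eval c (Nat.pair z b) := by
        rw [hev, hb']
        simp
      obtain ⟨k, hk⟩ := Nat.Partrec.Code.evaln_complete.1 h6
      have h7 := h (max k (b + 1))
      rw [decide_eq_true_eq] at h7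
      have h8 := h7 b (by omega)
      simp only [Bool.not_eq_true', decide_eq_false_iff_not] at h8
      exact h8 (Nat.Partrec.Code.evaln_mono (le_max_left _ _) hk)
    · intro h s
      rw [decide_eq_true_eq]
      intro b _
      simp only [Bool.not_eq_true', decide_eq_false_iff_not]
      intro h6
      have h7 := Nat.Partrec.Code.evaln_sound (show (0 : ℕ) ∈ _ from h6)
      rw [hev, h b] at h7
      simp at h7

/-- index of the predicate `∀ b, R((c+2, x), a, b)` for `k = ⟨c, _⟩` -/
def zz (k x a : ℕ) : ℕ := Nat.pair (k.unpair.1 + 2) (Nat.pair x a)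

/-- the candidate witness coded by `k = ⟨c, ⟨a, s⟩⟩` -/
def wa (k : ℕ) : ℕ := k.unpair.2.unpair.1

/-- the candidate stage coded by `k = ⟨c, ⟨a, s⟩⟩` -/
def ws (k : ℕ) : ℕ := k.unpair.2.unpair.2

/-- smaller witnesses are refuted at stage `ws k` -/
def QA (S : ℕ → ℕ → Bool) (q : ℕ × ℕ) : Bool :=
  decide (∀ a', a' < wa q.2 → (!S (zz q.2 q.1 a') (ws q.2)) = true)

/-- `ws k` is least possible -/
def QB (S : ℕ → ℕ → Bool) (q : ℕ × ℕ) : Bool :=
  decide (ws q.2 = 0) || decide (∃ a', a' < wa q.2 ∧ S (zz q.2 q.1 a') (ws q.2 - 1) = true)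

/-- the candidate `k` has not been refuted at stage `n` -/
def Qk (S : ℕ → ℕ → Bool) (x k n : ℕ) : Bool :=
  (S (zz k x (wa k)) n && QA S (x, k)) && QB S (x, k)

theorem prim_wa : Primrec wa :=
  Primrec.fst.comp (Primrec.unpair.comp (Primrec.snd.comp Primrec.unpair))

theorem prim_ws : Primrec ws :=
  Primrec.snd.comp (Primrec.unpair.comp (Primrec.snd.comp Primrec.unpair))

theorem prim_zz {α : Type} [Primcodable α] {k x a : α → ℕ} (hk : Primrec k) (hx : Primrec x)
    (ha : Primrec a) : Primrec (fun t => zz (k t) (x t) (a t)) :=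
  Primrec₂.natPair.comp
    (Primrec.nat_add.comp (Primrec.fst.comp (Primrec.unpair.comp hk)) (Primrec.const 2))
    (Primrec₂.natPair.comp hx ha)

theorem prim_QA {S : ℕ → ℕ → Bool} (hS : Primrec₂ S) : Primrec (QA S) := by
  have h : Primrec (fun r : (ℕ × ℕ) × ℕ => !S (zz r.1.2 r.1.1 r.2) (ws r.1.2)) :=
    Primrec.not.comp (hS.comp
      (prim_zz (Primrec.snd.comp Primrec.fst) (Primrec.fst.comp Primrec.fst) Primrec.snd)
      (prim_ws.comp (Primrec.snd.comp Primrec.fst)))
  exact prim_ball (f := fun (q : ℕ × ℕ) a' => !S (zz q.2 q.1 a') (ws q.2))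
    (n := fun q => wa q.2) h.to₂ (prim_wa.comp Primrec.snd)

theorem prim_QB {S : ℕ → ℕ → Bool} (hS : Primrec₂ S) : Primrec (QB S) := by
  have h : Primrec (fun r : (ℕ × ℕ) × ℕ => S (zz r.1.2 r.1.1 r.2) (ws r.1.2 - 1)) :=
    hS.comp
      (prim_zz (Primrec.snd.comp Primrec.fst) (Primrec.fst.comp Primrec.fst) Primrec.snd)
      (Primrec.nat_sub.comp (prim_ws.comp (Primrec.snd.comp Primrec.fst)) (Primrec.const 1))
  have h2 := prim_bex (f := fun (q : ℕ × ℕ) a' => S (zz q.2 q.1 a') (ws q.2 - 1))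
    (n := fun q => wa q.2) h.to₂ (prim_wa.comp Primrec.snd)
  have h3 : Primrec (fun q : ℕ × ℕ => decide (ws q.2 = 0)) :=
    (PrimrecRel.comp (R := fun a b : ℕ => a = b) Primrec.eq (prim_ws.comp Primrec.snd)
      (Primrec.const 0)).decide
  exact Primrec.or.comp h3 h2

theorem prim_Qk {α : Type} [Primcodable α] {S : ℕ → ℕ → Bool} (hS : Primrec₂ S)
    {x k n : α → ℕ} (hx : Primrec x) (hk : Primrec k) (hn : Primrec n) :
    Primrec (fun t => Qk S (x t) (k t) (n t)) := by
  have h1 : Primrec (fun t => S (zz (k t) (x t) (wa (k t))) (n t)) :=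
    hS.comp (prim_zz hk hx (prim_wa.comp hk)) hn
  have h2 : Primrec (fun t => QA S (x t, k t)) := (prim_QA hS).comp (hx.pair hk)
  have h3 : Primrec (fun t => QB S (x t, k t)) := (prim_QB hS).comp (hx.pair hk)
  exact Primrec.and.comp (Primrec.and.comp h1 h2) h3

/-- the local condition defining the tree -/
def OK (S1 S : ℕ → ℕ → Bool) (x : ℕ) (τ : List ℕ) : Bool :=
  (S1 x τ.length && decide (τ.sum ≤ 1)) &&
    (decide (τ.sum ≠ 1) || Qk S x (τ.idxOf 1) τ.length)

theorem prim_OK {S1 S : ℕ → ℕ → Bool} (hS1 : Primrec₂ S1) (hS : Primrec₂ S) :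
    Primrec₂ (fun (x : ℕ) (τ : List ℕ) => OK S1 S x τ) := by
  have hl : Primrec (fun q : ℕ × List ℕ => q.2.length) := Primrec.list_length.comp Primrec.snd
  have hsum : Primrec (fun q : ℕ × List ℕ => q.2.sum) := by
    have h : Primrec (fun q : ℕ × List ℕ => q.2.foldr (fun b s => b + s) 0) := by
      refine Primrec.list_foldr (h := fun (_ : ℕ × List ℕ) (p : ℕ × ℕ) => p.1 + p.2)
        Primrec.snd (Primrec.const 0) ?_
      exact Primrec.nat_add.comp (Primrec.fst.comp Primrec.snd) (Primrec.snd.comp Primrec.snd)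
    exact h.of_eq fun q => List.sum_eq_foldr.symm
  have hidx : Primrec (fun q : ℕ × List ℕ => q.2.idxOf 1) :=
    Primrec.list_idxOf.comp (Primrec.const 1) Primrec.snd
  have h1 : Primrec (fun q : ℕ × List ℕ => decide (q.2.sum ≤ 1)) :=
    (PrimrecRel.comp (R := fun a b : ℕ => a ≤ b) Primrec.nat_le hsum (Primrec.const 1)).decide
  have h2 : Primrec (fun q : ℕ × List ℕ => decide (q.2.sum ≠ 1)) := by
    have h3 : Primrec (fun q : ℕ × List ℕ => decide (q.2.sum = 1)) :=
      (PrimrecRel.comp (R := fun a b : ℕ => a = b) Primrec.eq hsum (Primrec.const 1)).decide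
    refine (Primrec.not.comp h3).of_eq fun q => ?_
    rw [decide_not]
  have h4 : Primrec (fun q : ℕ × List ℕ => Qk S q.1 (q.2.idxOf 1) q.2.length) :=
    prim_Qk hS Primrec.fst hidx hl
  have h5 : Primrec (fun q : ℕ × List ℕ => S1 q.1 q.2.length) := hS1.comp Primrec.fst hl
  have h6 : Primrec (fun q : ℕ × List ℕ => OK S1 S q.1 q.2) :=
    Primrec.and.comp (Primrec.and.comp h5 h1) (Primrec.or.comp h2 h4)
  exact h6.to₂

theorem prim_F {S1 S : ℕ → ℕ → Bool} (hS1 : Primrec₂ S1) (hS : Primrec₂ S) :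
    Primrec₂ (fun (x m : ℕ) => OK S1 S x (Denumerable.ofNat (List ℕ) m)) :=
  (prim_OK hS1 hS).comp Primrec.fst ((Primrec.ofNat (List ℕ)).comp Primrec.snd)

end Pool.R534.IC
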