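import Pool.Agent.R534.IC.Lower

/-!
# Lower bound: every set in `Γ_C` is many-one reducible to `I_C`
-/

namespace Pool.R534.IC

open Encodable

theorem OK_iff {S1 S : ℕ → ℕ → Bool} {x : ℕ} {τ : List ℕ} :
    OK S1 S x τ = true ↔ S1 x τ.length = true ∧ τ.sum ≤ 1 ∧
      (τ.sum = 1 → Qk S x (τ.idxOf 1) τ.length = true) := by
  unfold OK
  simp only [Bool.and_eq_true, Bool.or_eq_true, decide_eq_true_eq, ne_eq]
  constructor
  · rintro ⟨⟨h1, h2⟩, h3⟩
    exact ⟨h1, h2, fun h => h3.resolve_left (fun h' => h' h)⟩
  · rintro ⟨h1, h2, h3⟩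
    refine ⟨⟨h1, h2⟩, ?_⟩
    by_cases h : τ.sum = 1
    · exact Or.inr (h3 h)
    · exact Or.inl h

/-- the path with a single `1`, at place `k` -/
def dl (k : ℕ) : ℕ → ℕ := fun i => if i = k then 1 else 0

theorem dl_inj : Function.Injective dl := by
  intro k k' h
  have := congrFun h k
  simp only [dl, if_true] at this
  by_contra hne
  rw [if_neg hne] at this
  omega

theorem sum_le_of_le {g : ℕ → ℕ} {n m : ℕ} (h : n ≤ m) :
    ((List.range n).map g).sum ≤ ((List.range m).map g).sum := by
  induction m, h using Nat.le_induction with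
  | base => exact le_rfl
  | succ m _ ih =>
    rw [List.range_succ, List.map_append, List.sum_append]
    exact le_trans ih (Nat.le_add_right _ _)

theorem sum_two {g : ℕ → ℕ} {i j : ℕ} (h : i < j) :
    g i + g j ≤ ((List.range (j + 1)).map g).sum := by
  rw [List.range_succ, List.map_append, List.sum_append]
  have h1 : g i ≤ ((List.range (i + 1)).map g).sum := by
    rw [List.range_succ, List.map_append, List.sum_append]
    simp
  have h2 := sum_le_of_le (g := g) (show i + 1 ≤ j by omega)
  simp only [List.map_cons, List.map_nil, List.sum_cons, List.sum_nil, add_zero]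
  omega

theorem sum_dl (k n : ℕ) : ((List.range n).map (dl k)).sum = if k < n then 1 else 0 := by
  induction n with
  | zero => simp
  | succ n ih =>
    rw [List.range_succ, List.map_append, List.sum_append, ih]
    simp only [List.map_cons, List.map_nil, List.sum_cons, List.sum_nil, add_zero, dl]
    split_ifs <;> omega

theorem sum_zero (n : ℕ) : ((List.range n).map (fun _ => 0 : ℕ → ℕ)).sum = 0 := by
  induction n with
  | zero => simp
  | succ n ih =>
    rw [List.range_succ, List.map_append, List.sum_append, ih]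
    simp

theorem idxOf_dl {k n : ℕ} (h : k < n) : ((List.range n).map (dl k)).idxOf 1 = k := by
  have hmem : 1 ∈ (List.range n).map (dl k) := by
    rw [List.mem_map]
    exact ⟨k, List.mem_range.2 h, by simp [dl]⟩
  have hlt : ((List.range n).map (dl k)).idxOf 1 < ((List.range n).map (dl k)).length :=
    List.idxOf_lt_length_of_mem hmem
  have h1 := List.getElem_idxOf hlt
  rw [List.getElem_map, List.getElem_range] at h1
  by_contra hne
  rw [dl, if_neg hne] at h1
  omega

variable {S1 S : ℕ → ℕ → Bool} {x : ℕ}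

/-- surviving candidates -/
def KK (S : ℕ → ℕ → Bool) (x : ℕ) : Set ℕ := {k | ∀ n, k < n → Qk S x k n = true}

theorem paths_eq {π : ℕ → ℕ → Bool} {e : ℕ}
    (hπ : π e = fun m => OK S1 S x (Denumerable.ofNat (List ℕ) m))
    (h1 : ∀ s, S1 x s = true) :
    Q π e = insert (fun _ => 0) (dl '' KK S x) := by
  have hcls : ∀ g : ℕ → ℕ, g ∈ Q π e ↔
      (∀ n, OK S1 S x ((List.range n).map g) = true) ∧ ∀ n, g n < 2 := by
    intro g
    unfold Q
    rw [Set.mem_setOf_eq, cls_iff]
    simp only [hπ, Denumerable.ofNat_encode]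
  ext g
  rw [hcls g]
  simp only [OK_iff, List.length_map, List.length_range]
  constructor
  · rintro ⟨h, hg2⟩
    by_cases h0 : ∀ i, g i = 0
    · left
      funext i
      exact h0 i
    · right
      push Not at h0
      obtain ⟨k, hk⟩ := h0
      have hk1 : g k = 1 := by
        have := hg2 k
        omega
      have hgk : g = dl k := by
        funext i
        unfold dl
        split_ifs with hik
        · rw [hik]; exact hk1
        · rcases Nat.lt_or_gt_of_ne hik with hlt | hlt
          · have := sum_two (g := g) hlt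
            have h2 := (h (k + 1)).2.1
            omega
          · have := sum_two (g := g) hlt
            have h2 := (h (i + 1)).2.1
            omega
      refine ⟨k, ?_, hgk.symm⟩
      intro n hn
      have h3 := (h n).2.2
      rw [hgk, sum_dl, if_pos hn, idxOf_dl hn] at h3
      exact h3 rfl
  · rintro (h | ⟨k, hk, rfl⟩)
    · subst h
      refine ⟨fun n => ⟨h1 n, ?_, ?_⟩, fun n => by norm_num⟩
      · rw [sum_zero]; omega
      · rw [sum_zero]; intro h; omega
    · refine ⟨fun n => ⟨h1 n, ?_, ?_⟩, fun n => ?_⟩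
      · rw [sum_dl]; split_ifs <;> omega
      · rw [sum_dl]
        intro h
        have hkn : k < n := by
          by_contra hcon
          rw [if_neg hcon] at h
          omega
        rw [idxOf_dl hkn]
        exact hk n hkn
      · unfold dl; split_ifs <;> omega

theorem paths_empty {π : ℕ → ℕ → Bool} {e : ℕ}
    (hπ : π e = fun m => OK S1 S x (Denumerable.ofNat (List ℕ) m))
    (h1 : ¬ ∀ s, S1 x s = true) : Q π e = ∅ := by
  push Not at h1
  obtain ⟨s, hs⟩ := h1
  rw [Set.eq_empty_iff_forall_notMem]
  rintro g ⟨hg, -⟩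
  have h2 := cls_iff.1 hg s
  simp only [hπ, Denumerable.ofNat_encode] at h2
  have h3 := (OK_iff.1 h2).1
  simp only [List.length_map, List.length_range] at h3
  exact hs h3

theorem mem_KK (hmono : ∀ z s s', s ≤ s' → S z s' = true → S z s = true) {k : ℕ} :
    k ∈ KK S x ↔ (∀ n, S (zz k x (wa k)) n = true) ∧
      (∀ a', a' < wa k → S (zz k x a') (ws k) = false) ∧
      (ws k = 0 ∨ ∃ a', a' < wa k ∧ S (zz k x a') (ws k - 1) = true) := by
  have hQ : ∀ n, Qk S x k n = true ↔ S (zz k x (wa k)) n = true ∧
      (∀ a', a' < wa k → S (zz k x a') (ws k) = false) ∧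
      (ws k = 0 ∨ ∃ a', a' < wa k ∧ S (zz k x a') (ws k - 1) = true) := by
    intro n
    unfold Qk QA QB
    simp only [Bool.and_eq_true, Bool.or_eq_true, decide_eq_true_eq, Bool.not_eq_true']
    tauto
  unfold KK
  rw [Set.mem_setOf_eq]
  simp only [hQ]
  constructor
  · intro h
    refine ⟨fun n => ?_, (h (k + 1) (by omega)).2⟩
    exact hmono _ n (max (k + 1) n) (le_max_right _ _) (h _ (by omega)).1
  · intro h n _
    exact ⟨h.1 n, h.2⟩

theorem zz_eq (k x a : ℕ) : zz k x a = Nat.pair (k.unpair.1 + 2) (Nat.pair x a) := rfl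

theorem KK_inj (hmono : ∀ z s s', s ≤ s' → S z s' = true → S z s = true) :
    Set.InjOn (fun k => (Nat.unpair k).1) (KK S x) := by
  intro k hk k' hk' heq
  have heq' : (Nat.unpair k).1 = (Nat.unpair k').1 := heq
  have hz : ∀ a, zz k x a = zz k' x a := fun a => by rw [zz_eq, zz_eq, heq']
  rw [mem_KK hmono] at hk hk'
  have ha : wa k = wa k' := by
    rcases Nat.lt_trichotomy (wa k) (wa k') with h | h | h
    · have h1 := hk'.2.1 _ h
      have h2 := hk.1 (ws k')
      rw [hz, h1] at h2
      exact absurd h2 (by simp)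
    · exact h
    · have h1 := hk.2.1 _ h
      have h2 := hk'.1 (ws k)
      rw [← hz, h1] at h2
      exact absurd h2 (by simp)
  have aux : ∀ {k k' : ℕ}, (Nat.unpair k).1 = (Nat.unpair k').1 → wa k = wa k' →
      (∀ a', a' < wa k → S (zz k x a') (ws k) = false) →
      (ws k' = 0 ∨ ∃ a', a' < wa k' ∧ S (zz k' x a') (ws k' - 1) = true) →
      ¬ ws k < ws k' := by
    intro k k' heq ha h1 h2 hlt
    rcases h2 with h2 | ⟨a', ha', h2⟩
    · omega
    · have h3 := h1 a' (by rw [ha]; exact ha')
      have h4 := hmono _ (ws k) (ws k' - 1) (by omega) h2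
      rw [zz_eq, ← heq, ← zz_eq, h3] at h4
      exact absurd h4 (by simp)
  have hs : ws k = ws k' := by
    have h1 := aux heq' ha hk.2.1 hk'.2.2
    have h2 := aux heq'.symm ha.symm hk'.2.1 hk.2.2
    omega
  have h2 : (Nat.unpair k).2 = (Nat.unpair k').2 := by
    rw [← Nat.pair_unpair (Nat.unpair k).2, ← Nat.pair_unpair (Nat.unpair k').2]
    unfold wa at ha
    unfold ws at hs
    rw [ha, hs]
  rw [← Nat.pair_unpair k, ← Nat.pair_unpair k', heq', h2]

theorem KK_image (hmono : ∀ z s s', s ≤ s' → S z s' = true → S z s = true) :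
    (fun k => (Nat.unpair k).1) '' (KK S x) =
      {c | ∃ a, ∀ s, S (Nat.pair (c + 2) (Nat.pair x a)) s = true} := by
  classical
  ext c
  constructor
  · rintro ⟨k, hk, rfl⟩
    rw [mem_KK hmono] at hk
    exact ⟨wa k, hk.1⟩
  · intro hc
    have hc' : ∃ a, ∀ s, S (Nat.pair (c + 2) (Nat.pair x a)) s = true := hc
    let a := Nat.find hc'
    have ha : ∀ s, S (Nat.pair (c + 2) (Nat.pair x a)) s = true := Nat.find_spec hc'
    have hmin : ∀ a', a' < a → ∃ s, S (Nat.pair (c + 2) (Nat.pair x a')) s = false := by
      intro a' ha'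
      have := Nat.find_min hc' ha'
      push Not at this
      obtain ⟨s, hs⟩ := this
      exact ⟨s, by simpa using hs⟩
    have hex : ∀ m, m ≤ a → ∃ s, ∀ a', a' < m →
        S (Nat.pair (c + 2) (Nat.pair x a')) s = false := by
      intro m
      induction m with
      | zero => intro _; exact ⟨0, fun a' h => absurd h (Nat.not_lt_zero _)⟩
      | succ m ih =>
        intro hm
        obtain ⟨s, hs⟩ := ih (by omega)
        obtain ⟨s', hs'⟩ := hmin m (by omega)
        refine ⟨max s s', fun a' ha' => ?_⟩
        have key : ∀ t, t ≤ max s s' → S (Nat.pair (c + 2) (Nat.pair x a')) t = false →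
            S (Nat.pair (c + 2) (Nat.pair x a')) (max s s') = false := by
          intro t ht h
          by_contra hcon
          have := hmono _ t (max s s') ht (by simpa using hcon)
          rw [h] at this
          exact absurd this (by simp)
        rcases Nat.lt_succ_iff_lt_or_eq.1 ha' with h | h
        · exact key s (le_max_left _ _) (hs a' h)
        · subst h
          exact key s' (le_max_right _ _) hs'
    have hex' := hex a le_rfl
    let s0 := Nat.find hex'
    have hs0 : ∀ a', a' < a → S (Nat.pair (c + 2) (Nat.pair x a')) s0 = false :=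
      Nat.find_spec hex'
    have hs0min : s0 = 0 ∨ ∃ a', a' < a ∧
        S (Nat.pair (c + 2) (Nat.pair x a')) (s0 - 1) = true := by
      rcases Nat.eq_zero_or_pos s0 with h | h
      · exact Or.inl h
      · right
        have := Nat.find_min hex' (show s0 - 1 < Nat.find hex' from Nat.sub_lt h one_pos)
        push Not at this
        obtain ⟨a', ha', h2⟩ := this
        exact ⟨a', ha', by simpa using h2⟩
    refine ⟨Nat.pair c (Nat.pair a s0), ?_, by simp⟩
    rw [mem_KK hmono]
    simp only [zz, wa, ws, Nat.unpair_pair]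
    exact ⟨ha, hs0, hs0min⟩

end Pool.R534.IC
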