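import Pool.Agent.R534.IC.Lower2

/-!
# `I_C` is `Γ_C`-complete
-/

namespace Pool.R534.IC

open Encodable

theorem encard_Iio (m : ℕ) : ({c : ℕ | c < m} : Set ℕ).encard = m := by
  have : ({c : ℕ | c < m} : Set ℕ) = (Finset.range m : Set ℕ) := by
    ext c
    simp
  rw [this, Set.encard_coe_eq_coe_finsetCard, Finset.card_range]

theorem Gam_reduces {π : ℕ → ℕ → Bool} (hπ : EffEnum π) {C X : Set ℕ} (hX : Gam C X) :
    ManyOneReducible (fun x => x ∈ X) (fun x => x ∈ I π C) := by
  obtain ⟨E, hE0, ⟨R1, hR1, h1⟩, ⟨R, hR, h2⟩, hdec, hXE⟩ := hX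
  have hg1 : Computable (fun n : ℕ => R1 ((Nat.unpair n).1, (Nat.unpair n).2)) :=
    hR1.comp ((Computable.fst.comp Computable.unpair).pair (Computable.snd.comp Computable.unpair))
  obtain ⟨S1, hS1, -, hs1⟩ := exists_stage hg1
  have hs1' : ∀ x, (∀ s, S1 x s = true) ↔ x ∈ E 1 := by
    intro x
    rw [hs1 x, h1 x]
    simp only [Nat.unpair_pair]
  let dec : ℕ → (ℕ × ℕ) × ℕ × ℕ := fun n =>
    (((Nat.unpair (Nat.unpair n).1).1, (Nat.unpair (Nat.unpair (Nat.unpair n).1).2).1),
      (Nat.unpair (Nat.unpair (Nat.unpair n).1).2).2, (Nat.unpair n).2)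
  have hdecc : Computable dec := by
    have u1 : Primrec (fun n : ℕ => Nat.unpair (Nat.unpair n).1) :=
      Primrec.unpair.comp (Primrec.fst.comp Primrec.unpair)
    have u2 : Primrec (fun n : ℕ => Nat.unpair (Nat.unpair (Nat.unpair n).1).2) :=
      Primrec.unpair.comp (Primrec.snd.comp u1)
    exact (((Primrec.fst.comp u1).pair (Primrec.fst.comp u2)).pair
      ((Primrec.snd.comp u2).pair (Primrec.snd.comp Primrec.unpair))).to_comp
  have hg : Computable (fun n : ℕ => R (dec n)) := hR.comp hdecc
  obtain ⟨S, hS, hmono, hs⟩ := exists_stage hg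
  have hs' : ∀ c x, (∃ a, ∀ s, S (Nat.pair c (Nat.pair x a)) s = true) ↔ x ∈ E c := by
    intro c x
    have h3 := h2 (c, x)
    simp only at h3
    rw [h3]
    constructor
    · rintro ⟨a, ha⟩
      refine ⟨a, fun b => ?_⟩
      have := (hs _).1 ha b
      simpa [dec] using this
    · rintro ⟨a, ha⟩
      refine ⟨a, (hs _).2 fun b => ?_⟩
      have := ha b
      simpa [dec] using this
  obtain ⟨f, hf, hfπ⟩ := hπ.smn _ (prim_F hS1 hS)
  have hanti : ∀ x c d, c ≤ d → x ∈ E d → x ∈ E c := by
    intro x c d hcd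
    induction d, hcd using Nat.le_induction with
    | base => exact id
    | succ d _ ih => exact fun h => ih (hdec d h)
  have hcard0 : ∀ x, x ∉ E 1 → (Q π (f x)).encard = 0 := by
    intro x hx
    rw [paths_empty (hfπ x) (fun h => hx ((hs1' x).1 h))]
    simp
  have hcard1 : ∀ x, x ∈ E 1 →
      (Q π (f x)).encard = {c : ℕ | x ∈ E (c + 2)}.encard + 1 := by
    intro x hx
    rw [paths_eq (hfπ x) ((hs1' x).2 hx)]
    have hnot : (fun _ => 0 : ℕ → ℕ) ∉ dl '' KK S x := by
      rintro ⟨k, -, hk⟩
      have := congrFun hk k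
      simp [dl] at this
    rw [Set.encard_insert_of_notMem hnot, dl_inj.encard_image]
    congr 1
    rw [← (KK_inj (x := x) hmono).encard_image, KK_image hmono]
    congr 1
    ext c
    exact hs' (c + 2) x
  have hcardfin : ∀ x c, x ∈ E c → x ∉ E (c + 1) → (Q π (f x)).encard = c := by
    intro x c hc hc'
    rcases Nat.eq_zero_or_pos c with h0 | h0
    · subst h0
      rw [hcard0 x hc']
      simp
    · rw [hcard1 x (hanti x 1 c h0 hc)]
      have : {d : ℕ | x ∈ E (d + 2)} = {d : ℕ | d < c - 1} := by
        ext d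
        simp only [Set.mem_ofPred_eq]
        constructor
        · intro hd
          by_contra hcon
          exact hc' (hanti x (c + 1) (d + 2) (by omega) hd)
        · intro hd
          exact hanti x (d + 2) c (by omega) hc
      rw [this, encard_Iio]
      have h3 : ((c - 1 : ℕ) : ℕ∞) + 1 = ((c - 1 + 1 : ℕ) : ℕ∞) := by push_cast; rfl
      rw [h3, Nat.sub_add_cancel h0]
  have hcardinf : ∀ x, (∀ c, x ∈ E c) → (Q π (f x)).encard = ⊤ := by
    intro x hx
    rw [hcard1 x (hx 1)]
    have : {d : ℕ | x ∈ E (d + 2)} = Set.univ := by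
      ext d
      simp [hx]
    rw [this, Set.encard_univ]
    simp
  refine ⟨f, hf, fun x => ?_⟩
  show x ∈ X ↔ f x ∈ I π C
  rw [hXE x]
  constructor
  · rintro ⟨c, hc, h3, h4⟩
    have h5 := hcardfin x c h3 h4
    have hfin : (Q π (f x)).Finite := Set.finite_of_encard_eq_coe h5
    refine ⟨hfin, ?_⟩
    rw [← hfin.cast_ncard_eq] at h5
    have : (Q π (f x)).ncard = c := by exact_mod_cast h5
    rw [this]
    exact hc
  · rintro ⟨hfin, hC⟩
    have h3 : ∃ c, x ∉ E c := by
      by_contra hcon
      push Not at hcon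
      have := hcardinf x hcon
      exact absurd this (Set.encard_ne_top_iff.2 hfin)
    classical
    let c := Nat.find h3
    have hc : x ∉ E c := Nat.find_spec h3
    have hc0 : c ≠ 0 := by
      intro h
      rw [h, hE0] at hc
      exact hc (Set.mem_univ x)
    have hc1 : x ∈ E (c - 1) := by
      have := Nat.find_min h3 (show c - 1 < Nat.find h3 from Nat.sub_lt (by omega) one_pos)
      push Not at this
      exact this
    have h4 := hcardfin x (c - 1) hc1 (by rwa [Nat.sub_add_cancel (by omega)])
    rw [← hfin.cast_ncard_eq] at h4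
    have h5 : (Q π (f x)).ncard = c - 1 := by exact_mod_cast h4
    rw [h5] at hC
    exact ⟨c - 1, hC, hc1, by rwa [Nat.sub_add_cancel (by omega)]⟩

/-- **General theorem.** `I_C` is `Γ_C`-complete, for every `C`. -/
theorem I_complete {π : ℕ → ℕ → Bool} (hπ : EffEnum π) (C : Set ℕ) :
    Complete (Gam C) (I π C) :=
  ⟨I_mem_Gam hπ.computable C, fun _ hY => Gam_reduces hπ hY⟩

/-! ## Existence of an effective enumeration -/

open Nat.Partrec (Code)

/-- codes without the `μ`-operator -/
def isPrim : Code → Bool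
  | .zero => true
  | .succ => true
  | .left => true
  | .right => true
  | .pair a b => isPrim a && isPrim b
  | .comp a b => isPrim a && isPrim b
  | .prec a b => isPrim a && isPrim b
  | .rfind' _ => false

theorem exists_isPrim {f : ℕ → ℕ} (hf : Nat.Primrec f) :
    ∃ c : Code, isPrim c = true ∧ ∀ n, c.eval n = Part.some (f n) := by
  induction hf with
  | zero => exact ⟨.zero, rfl, fun n => rfl⟩
  | succ => exact ⟨.succ, rfl, fun n => rfl⟩
  | left => exact ⟨.left, rfl, fun n => rfl⟩
  | right => exact ⟨.right, rfl, fun n => rfl⟩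
  | pair _ _ ih1 ih2 =>
    obtain ⟨c1, h1, e1⟩ := ih1
    obtain ⟨c2, h2, e2⟩ := ih2
    refine ⟨.pair c1 c2, by simp [isPrim, h1, h2], fun n => ?_⟩
    simp [Code.eval, e1, e2, Seq.seq]
  | comp _ _ ih1 ih2 =>
    obtain ⟨c1, h1, e1⟩ := ih1
    obtain ⟨c2, h2, e2⟩ := ih2
    refine ⟨.comp c1 c2, by simp [isPrim, h1, h2], fun n => ?_⟩
    show (c2.eval n).bind c1.eval = _
    rw [e2]
    exact (Part.bind_some _ _).trans (e1 _)
  | @prec f g _ _ ih1 ih2 =>
    obtain ⟨c1, h1, e1⟩ := ih1
    obtain ⟨c2, h2, e2⟩ := ih2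
    refine ⟨.prec c1 c2, by simp [isPrim, h1, h2], fun n => ?_⟩
    rw [← Nat.pair_unpair n]
    simp only [Nat.unpaired, Nat.unpair_pair]
    induction (Nat.unpair n).2 with
    | zero => simp [Code.eval_prec_zero, e1]
    | succ m ih =>
      rw [Code.eval_prec_succ, ih]
      simp [e2]

theorem isPrim_total {c : Code} (hc : isPrim c = true) :
    ∃ f : ℕ → ℕ, Nat.Primrec f ∧ ∀ n, c.eval n = Part.some (f n) := by
  induction c with
  | zero => exact ⟨_, Nat.Primrec.zero, fun n => rfl⟩
  | succ => exact ⟨_, Nat.Primrec.succ, fun n => rfl⟩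
  | left => exact ⟨_, Nat.Primrec.left, fun n => rfl⟩
  | right => exact ⟨_, Nat.Primrec.right, fun n => rfl⟩
  | pair c1 c2 ih1 ih2 =>
    simp only [isPrim, Bool.and_eq_true] at hc
    obtain ⟨f1, h1, e1⟩ := ih1 hc.1
    obtain ⟨f2, h2, e2⟩ := ih2 hc.2
    refine ⟨_, Nat.Primrec.pair h1 h2, fun n => ?_⟩
    simp [Code.eval, e1, e2, Seq.seq]
  | comp c1 c2 ih1 ih2 =>
    simp only [isPrim, Bool.and_eq_true] at hc
    obtain ⟨f1, h1, e1⟩ := ih1 hc.1
    obtain ⟨f2, h2, e2⟩ := ih2 hc.2
    refine ⟨_, Nat.Primrec.comp h1 h2, fun n => ?_⟩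
    show (c2.eval n).bind c1.eval = _
    rw [e2]
    exact (Part.bind_some _ _).trans (e1 _)
  | prec c1 c2 ih1 ih2 =>
    simp only [isPrim, Bool.and_eq_true] at hc
    obtain ⟨f1, h1, e1⟩ := ih1 hc.1
    obtain ⟨f2, h2, e2⟩ := ih2 hc.2
    refine ⟨_, Nat.Primrec.prec h1 h2, fun n => ?_⟩
    rw [← Nat.pair_unpair n]
    simp only [Nat.unpaired, Nat.unpair_pair]
    induction (Nat.unpair n).2 with
    | zero => simp [Code.eval_prec_zero, e1]
    | succ m ih =>
      rw [Code.eval_prec_succ, ih]
      simp [e2]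
  | rfind' c _ => simp [isPrim] at hc

theorem primrec_isPrim : Primrec isPrim := by
  have h := Code.primrec_recOn (α := Code) (σ := Bool) (c := id) Primrec.id
    (z := fun _ => true) (Primrec.const true) (s := fun _ => true) (Primrec.const true)
    (l := fun _ => true) (Primrec.const true) (r := fun _ => true) (Primrec.const true)
    (pr := fun _ _ _ a b => a && b)
    (Primrec.and.comp
      (Primrec.fst.comp (Primrec.snd.comp (Primrec.snd.comp Primrec.snd)))
      (Primrec.snd.comp (Primrec.snd.comp (Primrec.snd.comp Primrec.snd))))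
    (co := fun _ _ _ a b => a && b)
    (Primrec.and.comp
      (Primrec.fst.comp (Primrec.snd.comp (Primrec.snd.comp Primrec.snd)))
      (Primrec.snd.comp (Primrec.snd.comp (Primrec.snd.comp Primrec.snd))))
    (pc := fun _ _ _ a b => a && b)
    (Primrec.and.comp
      (Primrec.fst.comp (Primrec.snd.comp (Primrec.snd.comp Primrec.snd)))
      (Primrec.snd.comp (Primrec.snd.comp (Primrec.snd.comp Primrec.snd))))
    (rf := fun _ _ _ => false) (Primrec.const false)
  refine h.of_eq fun c => ?_
  induction c with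
  | zero => rfl
  | succ => rfl
  | left => rfl
  | right => rfl
  | pair c1 c2 ih1 ih2 => simp only [id_eq] at ih1 ih2 ⊢; simp only [isPrim, ← ih1, ← ih2]
  | comp c1 c2 ih1 ih2 => simp only [id_eq] at ih1 ih2 ⊢; simp only [isPrim, ← ih1, ← ih2]
  | prec c1 c2 ih1 ih2 => simp only [id_eq] at ih1 ih2 ⊢; simp only [isPrim, ← ih1, ← ih2]
  | rfind' c _ => rfl

open Classical in
/-- value of a code (`0` if it contains `μ`) -/
noncomputable def val (c : Code) : ℕ → ℕ :=
  if h : isPrim c = true then (isPrim_total h).choose else fun _ => 0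

theorem val_spec {c : Code} (h : isPrim c = true) (n : ℕ) :
    c.eval n = Part.some (val c n) := by
  unfold val
  rw [dif_pos h]
  exact (isPrim_total h).choose_spec.2 n

theorem val_prim (c : Code) : Nat.Primrec (val c) := by
  unfold val
  split_ifs with h
  · exact (isPrim_total h).choose_spec.1
  · exact Nat.Primrec.const 0

/-- a concrete effective enumeration -/
noncomputable def stdEnum (e m : ℕ) : Bool :=
  decide (val (Denumerable.ofNat Code e) m = 1)

theorem comp_val : Computable₂ (fun (c : Code) (m : ℕ) => val c m) := by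
  have h1 : Partrec (fun q : Code × ℕ => cond (isPrim q.1) (Code.eval q.1 q.2) (Part.some 0)) :=
    Partrec.cond (primrec_isPrim.to_comp.comp Computable.fst)
      (Code.eval_part.comp Computable.fst Computable.snd) (Computable.const 0)
  refine Partrec.of_eq_tot h1 fun q => ?_
  cases h : isPrim q.1 with
  | true =>
    rw [cond_true, val_spec h]
    exact Part.mem_some _
  | false =>
    rw [cond_false]
    have : val q.1 q.2 = 0 := by
      unfold val
      rw [dif_neg (by simp [h])]
    show val q.1 q.2 ∈ _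
    rw [this]
    exact Part.mem_some _

theorem isPrim_const (n : ℕ) : isPrim (Code.const n) = true := by
  induction n with
  | zero => rfl
  | succ n ih => simp [Code.const, isPrim, ih]

theorem isPrim_curry {c : Code} (h : isPrim c = true) (n : ℕ) :
    isPrim (Code.curry c n) = true := by
  simp [Code.curry, isPrim, h, isPrim_const, Code.id]

/-- There is an effective enumeration of the primitive recursive functions. -/
theorem exists_effEnum : EffEnum stdEnum where
  computable := by
    have h1 : Computable (fun q : ℕ × ℕ => val (Denumerable.ofNat Code q.1) q.2) :=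
      comp_val.comp ((Computable.ofNat Code).comp Computable.fst) Computable.snd
    have h2 : Computable (fun n : ℕ => decide (n = 1)) :=
      (PrimrecRel.comp (R := fun a b : ℕ => a = b) Primrec.eq Primrec.id
        (Primrec.const 1)).decide.to_comp
    exact (h2.comp h1).to₂
  row := by
    intro e
    have h2 : Primrec (fun n : ℕ => decide (n = 1)) :=
      (PrimrecRel.comp (R := fun a b : ℕ => a = b) Primrec.eq Primrec.id
        (Primrec.const 1)).decide
    exact h2.comp (Primrec.nat_iff.2 (val_prim _))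
  smn := by
    intro F hF
    have h1 : Nat.Primrec (fun n => Encodable.encode (F (Nat.unpair n).1 (Nat.unpair n).2)) := by
      rw [← Primrec.nat_iff]
      exact Primrec.encode.comp (hF.comp (Primrec.fst.comp Primrec.unpair)
        (Primrec.snd.comp Primrec.unpair))
    obtain ⟨c0, hc0, hev⟩ := exists_isPrim h1
    refine ⟨fun x => Encodable.encode (Code.curry c0 x), ?_, fun x => ?_⟩
    · exact Computable.encode.comp
        (Code.primrec₂_curry.comp (Primrec.const c0) Primrec.id).to_comp
    · funext m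
      unfold stdEnum
      rw [Denumerable.ofNat_encode]
      have h2 := val_spec (isPrim_curry hc0 x) m
      rw [Code.eval_curry, hev, Nat.unpair_pair] at h2
      have h3 := Part.some_injective h2
      rw [← h3]
      cases F x m <;> rfl

end Pool.R534.IC
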