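import Pool.Agent.R534.IC.Main

/-!
# `Σ⁰₃`-completeness
-/

namespace Pool.R534.IC

open Encodable

theorem S2.ex {α : Type} [Primcodable α] {p : α × ℕ → Prop} (hp : S2 p) :
    S2 (fun a => ∃ k, p (a, k)) := by
  obtain ⟨R, hR, h⟩ := hp
  refine ⟨fun t => R ((t.1, (Nat.unpair t.2.1).1), (Nat.unpair t.2.1).2, t.2.2), ?_, ?_⟩
  · have h1 : Computable (fun t : α × ℕ × ℕ => Nat.unpair t.2.1) :=
      Computable.unpair.comp (Computable.fst.comp Computable.snd)
    exact hR.comp ((Computable.fst.pair (Computable.fst.comp h1)).pair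
      ((Computable.snd.comp h1).pair (Computable.snd.comp Computable.snd)))
  · intro x
    constructor
    · rintro ⟨k, hk⟩
      obtain ⟨a, ha⟩ := (h (x, k)).1 hk
      exact ⟨Nat.pair k a, fun b => by simpa using ha b⟩
    · rintro ⟨a, ha⟩
      exact ⟨(Nat.unpair a).1, (h _).2 ⟨(Nat.unpair a).2, ha⟩⟩

/-- if `C` is `Σ⁰₃` then all sets in `Γ_C` are `Σ⁰₃` -/
theorem Gam_sigma3 {C X : Set ℕ} (hC : Sigma3 C) (hX : Gam C X) : Sigma3 X := by
  obtain ⟨R3, hR3, h3⟩ := hC
  obtain ⟨E, -, -, ⟨R, hR, hE⟩, -, hXE⟩ := hX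
  refine ⟨fun q => (R3 ((Nat.unpair q.2.1).1, (Nat.unpair (Nat.unpair q.2.1).2).1, q.2.2.1,
    (Nat.unpair q.2.2.2).1) &&
    R (((Nat.unpair q.2.1).1, q.1), (Nat.unpair (Nat.unpair q.2.1).2).2, q.2.2.1)) &&
    !R (((Nat.unpair q.2.1).1 + 1, q.1), q.2.2.1, (Nat.unpair q.2.2.2).2), ?_, ?_⟩
  · have ha : Computable (fun q : ℕ × ℕ × ℕ × ℕ => Nat.unpair q.2.1) :=
      Computable.unpair.comp (Computable.fst.comp Computable.snd)
    have ha' : Computable (fun q : ℕ × ℕ × ℕ × ℕ => Nat.unpair (Nat.unpair q.2.1).2) :=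
      Computable.unpair.comp (Computable.snd.comp ha)
    have hb : Computable (fun q : ℕ × ℕ × ℕ × ℕ => q.2.2.1) :=
      Computable.fst.comp (Computable.snd.comp Computable.snd)
    have hd : Computable (fun q : ℕ × ℕ × ℕ × ℕ => Nat.unpair q.2.2.2) :=
      Computable.unpair.comp (Computable.snd.comp (Computable.snd.comp Computable.snd))
    refine comp_and (comp_and ?_ ?_) (comp_not ?_)
    · exact hR3.comp ((Computable.fst.comp ha).pair ((Computable.fst.comp ha').pair
        (hb.pair (Computable.fst.comp hd))))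
    · exact hR.comp (((Computable.fst.comp ha).pair Computable.fst).pair
        ((Computable.snd.comp ha').pair hb))
    · exact hR.comp (((Computable.succ.comp (Computable.fst.comp ha)).pair Computable.fst).pair
        (hb.pair (Computable.snd.comp hd)))
  · intro x
    rw [hXE x]
    constructor
    · rintro ⟨c, hc, h1, h2⟩
      obtain ⟨a, ha⟩ := (h3 c).1 hc
      obtain ⟨a', ha'⟩ := (hE (c, x)).1 h1
      have h4 := mt (hE (c + 1, x)).2 h2
      push Not at h4
      refine ⟨Nat.pair c (Nat.pair a a'), fun b => ?_⟩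
      obtain ⟨d, hd⟩ := ha b
      obtain ⟨d', hd'⟩ := h4 b
      refine ⟨Nat.pair d d', ?_⟩
      simp [hd, ha' b, hd']
    · rintro ⟨t, ht⟩
      refine ⟨(Nat.unpair t).1, (h3 _).2 ⟨(Nat.unpair (Nat.unpair t).2).1, fun b => ?_⟩,
        (hE ((Nat.unpair t).1, x)).2 ⟨(Nat.unpair (Nat.unpair t).2).2, fun b => ?_⟩,
        fun hcon => ?_⟩
      · obtain ⟨d, hd⟩ := ht b
        simp only [Bool.and_eq_true] at hd
        exact ⟨_, hd.1.1⟩
      · obtain ⟨d, hd⟩ := ht b
        simp only [Bool.and_eq_true] at hd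
        exact hd.1.2
      · obtain ⟨a, ha⟩ := (hE ((Nat.unpair t).1 + 1, x)).1 hcon
        obtain ⟨d, hd⟩ := ht a
        simp only [Bool.and_eq_true, Bool.not_eq_true'] at hd
        have h5 := ha (Nat.unpair d).2
        rw [h5] at hd
        exact absurd hd.2 (by simp)

theorem sigma3_Gam {C : Set ℕ} (hC : Approachable C) {Y : Set ℕ} (hY : Sigma3 Y) : Gam C Y := by
  obtain ⟨v, hv, hvC, hun⟩ := hC
  obtain ⟨R, hR, hYR⟩ := hY
  obtain ⟨i0, hi0⟩ := hun 1
  -- `¬ P x a`
  have hP : S2 (fun q : ℕ × ℕ => ¬ ∀ b, ∃ d, R (q.1, q.2, b, d) = true) := by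
    refine ⟨fun t => !R (t.1.1, t.1.2, t.2.1, t.2.2), comp_not (hR.comp
      ((Computable.fst.comp Computable.fst).pair ((Computable.snd.comp Computable.fst).pair
        Computable.snd))), fun q => ?_⟩
    push Not
    simp
  have hball : S2 (fun q : ℕ × ℕ => ∀ a, a < q.2 → ¬ ∀ b, ∃ d, R (q.1, a, b, d) = true) := by
    have h1 : S2 (fun r : (ℕ × ℕ) × ℕ => ¬ ∀ b, ∃ d, R (r.1.1, r.2, b, d) = true) :=
      S2.comp hP (f := fun r : (ℕ × ℕ) × ℕ => (r.1.1, r.2))
        ((Computable.fst.comp Computable.fst).pair Computable.snd)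
    exact S2.ball h1 Computable.snd
  refine ⟨fun c => {x | c ≤ 1 ∨ ∃ k j, j ≤ k + i0 ∧ c ≤ v j ∧
    ∀ a, a < k → ¬ ∀ b, ∃ d, R (x, a, b, d) = true}, ?_, ?_, ?_, ?_, ?_⟩
  · ext x
    simp
  · refine ⟨fun _ => true, Computable.const true, fun x => ?_⟩
    simp
  · show S2 (fun q : ℕ × ℕ => q.1 ≤ 1 ∨ ∃ k j, j ≤ k + i0 ∧ q.1 ≤ v j ∧
      ∀ a, a < k → ¬ ∀ b, ∃ d, R (q.2, a, b, d) = true)
    have h1 : S2 (fun q : ℕ × ℕ => decide (q.1 ≤ 1) = true) :=
      S2.of_computable (PrimrecRel.comp (R := fun a b : ℕ => a ≤ b) Primrec.nat_le Primrec.fst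
        (Primrec.const 1)).decide.to_comp
    have h2 : S2 (fun r : ((ℕ × ℕ) × ℕ) × ℕ => decide (r.2 ≤ r.1.2 + i0) = true) :=
      S2.of_computable (PrimrecRel.comp (R := fun a b : ℕ => a ≤ b) Primrec.nat_le Primrec.snd
        (Primrec.nat_add.comp (Primrec.snd.comp Primrec.fst) (Primrec.const i0))).decide.to_comp
    have h3 : S2 (fun r : ((ℕ × ℕ) × ℕ) × ℕ => r.1.1.1 ≤ v r.2) :=
      S2.comp hv (f := fun r : ((ℕ × ℕ) × ℕ) × ℕ => (r.2, r.1.1.1))
        (Computable.snd.pair (Computable.fst.comp (Computable.fst.comp Computable.fst)))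
    have h4 : S2 (fun r : ((ℕ × ℕ) × ℕ) × ℕ => ∀ a, a < r.1.2 →
        ¬ ∀ b, ∃ d, R (r.1.1.2, a, b, d) = true) :=
      S2.comp hball (f := fun r : ((ℕ × ℕ) × ℕ) × ℕ => (r.1.1.2, r.1.2))
        ((Computable.snd.comp (Computable.fst.comp Computable.fst)).pair
          (Computable.snd.comp Computable.fst))
    refine (S2.or h1 (S2.ex (S2.ex (S2.and h2 (S2.and h3 h4))))).of_iff fun q => ?_
    simp only [decide_eq_true_eq]
  · rintro c x (h | ⟨k, j, h1, h2, h3⟩)
    · exact Or.inl (by omega)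
    · exact Or.inr ⟨k, j, h1, by omega, h3⟩
  · intro x
    rw [hYR x]
    constructor
    · intro hx
      classical
      let a0 := Nat.find hx
      have ha0 : ∀ b, ∃ d, R (x, a0, b, d) = true := Nat.find_spec hx
      have hmin : ∀ a, a < a0 → ¬ ∀ b, ∃ d, R (x, a, b, d) = true := fun a ha =>
        Nat.find_min hx ha
      obtain ⟨j, hj, hmax⟩ := Finset.exists_max_image (Finset.range (a0 + i0 + 1)) v
        ⟨0, by simp⟩
      rw [Finset.mem_range] at hj
      have hv1 : 1 ≤ v j := hi0.trans (hmax i0 (Finset.mem_range.2 (by omega)))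
      refine ⟨v j, hvC j, Or.inr ⟨a0, j, by omega, le_rfl, hmin⟩, ?_⟩
      rintro (h | ⟨k, j', h1, h2, h3⟩)
      · omega
      · have h4 : k ≤ a0 := by
          by_contra hcon
          exact h3 a0 (by omega) ha0
        have := hmax j' (Finset.mem_range.2 (by omega))
        omega
    · rintro ⟨c, -, -, h2⟩
      by_contra hcon
      push Not at hcon
      apply h2
      obtain ⟨j, hj⟩ := hun (c + 1)
      refine Or.inr ⟨j, j, by omega, hj, fun a _ h => ?_⟩
      obtain ⟨b, hb⟩ := hcon a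
      obtain ⟨d, hd⟩ := h b
      exact hb d hd

/-- an infinite `Π⁰₂` subset suffices -/
theorem approachable_of_pi2 {C C' : Set ℕ} (hC' : Pi2 C') (hinf : C'.Infinite) (hsub : C' ⊆ C) :
    Approachable C := by
  classical
  have hex : ∀ i, ∃ d, i ≤ d ∧ d ∈ C' := by
    intro i
    obtain ⟨d, hd, hi⟩ := hinf.exists_gt i
    exact ⟨d, hi.le, hd⟩
  refine ⟨fun i => Nat.find (hex i), ?_, fun i => hsub (Nat.find_spec (hex i)).2,
    fun n => ⟨n, (Nat.find_spec (hex n)).1⟩⟩
  have h1 : S2 (fun r : (ℕ × ℕ) × ℕ => decide (r.2 < r.1.1) = true) :=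
    S2.of_computable (PrimrecRel.comp (R := fun a b : ℕ => a < b) Primrec.nat_lt Primrec.snd
      (Primrec.fst.comp Primrec.fst)).decide.to_comp
  have h2 : S2 (fun r : (ℕ × ℕ) × ℕ => r.2 ∉ C') :=
    S2.comp ((pi2_iff C').1 hC') Computable.snd
  have h3 := S2.ball (S2.or h1 h2) (n := fun q : ℕ × ℕ => q.2) Computable.snd
  refine h3.of_iff fun q => ?_
  rw [Nat.le_find_iff]
  constructor
  · intro h d hd
    have := h d hd
    simp only [decide_eq_true_eq]
    by_cases h5 : d < q.1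
    · exact Or.inl h5
    · exact Or.inr (fun h6 => this ⟨by omega, h6⟩)
  · intro h d hd ⟨h5, h6⟩
    have := h d hd
    simp only [decide_eq_true_eq] at this
    rcases this with h7 | h7
    · omega
    · exact h7 h6

theorem Sigma1.pi2 {C : Set ℕ} (h : Sigma1 C) : Pi2 C := by
  obtain ⟨R, hR, h⟩ := h
  refine ⟨fun q => R (q.1, q.2.2), hR.comp (Computable.fst.pair
    (Computable.snd.comp Computable.snd)), fun x => ?_⟩
  rw [h x]
  exact ⟨fun h _ => h, fun h => h 0⟩

theorem Pi1.pi2 {C : Set ℕ} (h : Pi1 C) : Pi2 C := by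
  obtain ⟨R, hR, h⟩ := h
  refine ⟨fun q => R (q.1, q.2.1), hR.comp (Computable.fst.pair
    (Computable.fst.comp Computable.snd)), fun x => ?_⟩
  rw [h x]
  exact ⟨fun h a => ⟨0, h a⟩, fun h a => (h a).choose_spec⟩

theorem Pi2.sigma3 {C : Set ℕ} (h : Pi2 C) : Sigma3 C := by
  obtain ⟨R, hR, h⟩ := h
  refine ⟨fun q => R (q.1, q.2.2.1, q.2.2.2), hR.comp (Computable.fst.pair
    (Computable.snd.comp Computable.snd)), fun x => ?_⟩
  rw [h x]
  exact ⟨fun h => ⟨0, h⟩, fun ⟨_, h⟩ => h⟩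

theorem sigma3_complete {π : ℕ → ℕ → Bool} (hπ : EffEnum π) {C : Set ℕ} (hC : Sigma3 C)
    (hA : Approachable C) : Complete Sigma3 (I π C) :=
  ⟨Gam_sigma3 hC (I_complete hπ C).1, fun Y hY => (I_complete hπ C).2 Y (sigma3_Gam hA hY)⟩

/-- Every infinite `Π⁰₂` set `C` (in particular every infinite computable, c.e. or `Π⁰₁` set)
gives a `Σ⁰₃`-complete index set. -/
theorem pi2_complete {π : ℕ → ℕ → Bool} (hπ : EffEnum π) {C : Set ℕ} (hC : Pi2 C)
    (hinf : C.Infinite) : Complete Sigma3 (I π C) :=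
  sigma3_complete hπ hC.sigma3 (approachable_of_pi2 hC hinf subset_rfl)

/-! ## The trivial cases -/

theorem I_empty (π : ℕ → ℕ → Bool) : I π ∅ = ∅ := by
  ext e
  simp [I]

theorem Gam_zero_iff (X : Set ℕ) : Gam {0} X ↔ Sigma1 X := by
  constructor
  · rintro ⟨E, hE0, ⟨R, hR, h1⟩, -, -, hX⟩
    refine ⟨fun q => !R q, comp_not hR, fun x => ?_⟩
    rw [hX x]
    have : (∃ c ∈ ({0} : Set ℕ), x ∈ E c ∧ x ∉ E (c + 1)) ↔ x ∉ E 1 := by
      constructor
      · rintro ⟨c, hc, h2, h3⟩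
        rw [Set.mem_singleton_iff] at hc
        subst hc
        exact h3
      · intro h
        exact ⟨0, rfl, by rw [hE0]; exact Set.mem_univ x, h⟩
    rw [this, h1 x]
    push Not
    simp
  · rintro ⟨R, hR, h⟩
    refine ⟨fun c => if c = 0 then Set.univ else Xᶜ, by simp, ?_, ?_, ?_, ?_⟩
    · refine ⟨fun q => !R q, comp_not hR, fun x => ?_⟩
      simp only [one_ne_zero, if_false]
      show ¬ (x ∈ X) ↔ _
      rw [h x]
      push Not
      simp
    · have h1 : S2 (fun q : ℕ × ℕ => decide (q.1 = 0) = true) :=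
        S2.of_computable (PrimrecRel.comp (R := fun a b : ℕ => a = b) Primrec.eq Primrec.fst
          (Primrec.const 0)).decide.to_comp
      have h2 : S2 (fun q : ℕ × ℕ => q.2 ∉ X) := by
        refine ⟨fun t => !R (t.1.2, t.2.2), comp_not (hR.comp
          ((Computable.snd.comp Computable.fst).pair (Computable.snd.comp Computable.snd))),
          fun q => ?_⟩
        show ¬ (q.2 ∈ X) ↔ _
        rw [h q.2]
        push Not
        simp
      refine (S2.or h1 h2).of_iff fun q => ?_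
      show q.2 ∈ (if q.1 = 0 then Set.univ else Xᶜ) ↔ _
      rw [decide_eq_true_eq]
      split_ifs with h0
      · simp [h0]
      · simp [h0]
    · intro c
      simp only [Nat.add_eq_zero_iff, one_ne_zero, and_false, if_false]
      split_ifs
      · exact Set.subset_univ _
      · exact subset_rfl
    · intro x
      constructor
      · intro hx
        refine ⟨0, rfl, by simp, ?_⟩
        simpa using hx
      · rintro ⟨c, hc, -, h3⟩
        rw [Set.mem_singleton_iff] at hc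
        subst hc
        simpa using h3

/-- `I_{0}` is `Σ⁰₁`-complete. -/
theorem zero_complete {π : ℕ → ℕ → Bool} (hπ : EffEnum π) : Complete Sigma1 (I π {0}) :=
  ⟨(Gam_zero_iff _).1 (I_complete hπ {0}).1,
    fun Y hY => (I_complete hπ {0}).2 Y ((Gam_zero_iff Y).2 hY)⟩

end Pool.R534.IC
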