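import Pool.Agent.R534.IC.Defs

/-!
# Upper bound: `I_C ∈ Γ_C`
-/

namespace Pool.R534.IC

open Encodable

/-- the first `N` binary digits of `v` (least significant first) -/
def bl (v N : ℕ) : List ℕ := (List.range N).map (fun i => v / 2 ^ i % 2)

theorem primrec_pow : Primrec₂ (fun a b : ℕ => a ^ b) :=
  Primrec₂.unpaired'.1 Nat.Primrec.pow

theorem primrec_bl : Primrec₂ bl := by
  refine Primrec.list_map (f := fun q : ℕ × ℕ => List.range q.2)
    (g := fun (q : ℕ × ℕ) (i : ℕ) => q.1 / 2 ^ i % 2) (Primrec.list_range.comp Primrec.snd) ?_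
  exact Primrec.nat_mod.comp
    (Primrec.nat_div.comp (Primrec.fst.comp Primrec.fst)
      (primrec_pow.comp (Primrec.const 2) Primrec.snd)) (Primrec.const 2)

/-- the first `N` digits of `v` form a node of the `e`-th tree -/
def V (π : ℕ → ℕ → Bool) (e v N : ℕ) : Bool :=
  decide (∀ j, j < N + 1 → π e (encode (bl v j)) = true)

theorem V_iff {π : ℕ → ℕ → Bool} {e v N : ℕ} :
    V π e v N = true ↔ ∀ j, j ≤ N → π e (encode (bl v j)) = true := by
  unfold V
  rw [decide_eq_true_eq]
  exact ⟨fun h j hj => h j (Nat.lt_succ_of_le hj), fun h j hj => h j (Nat.le_of_lt_succ hj)⟩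

theorem comp_V {π : ℕ → ℕ → Bool} (hπ : Computable₂ π) :
    Computable (fun q : ℕ × ℕ × ℕ => V π q.1 q.2.1 q.2.2) := by
  refine comp_ball (f := fun (q : ℕ × ℕ × ℕ) j => π q.1 (encode (bl q.2.1 j)))
    (n := fun q => q.2.2 + 1) ?_ ?_
  · have h : Computable (fun s : (ℕ × ℕ × ℕ) × ℕ => bl s.1.2.1 s.2) :=
      primrec_bl.to_comp.comp (Computable.fst.comp (Computable.snd.comp Computable.fst))
        Computable.snd
    exact hπ.comp (Computable.fst.comp Computable.fst) (Computable.encode.comp h)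
  · exact Computable.succ.comp (Computable.snd.comp Computable.snd)

/-- number with binary digits `f 0, ..., f (N-1)` -/
def cd (f : ℕ → ℕ) : ℕ → ℕ
  | 0 => 0
  | N + 1 => cd f N + 2 ^ N * f N

theorem cd_lt {f : ℕ → ℕ} (hf : ∀ n, f n < 2) (N : ℕ) : cd f N < 2 ^ N := by
  induction N with
  | zero => simp [cd]
  | succ N ih =>
    have h := hf N
    have : 2 ^ N * f N ≤ 2 ^ N := by
      calc 2 ^ N * f N ≤ 2 ^ N * 1 := Nat.mul_le_mul_left _ (by omega)
        _ = 2 ^ N := by ring
    simp only [cd, pow_succ]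
    omega

theorem cd_digit {f : ℕ → ℕ} (hf : ∀ n, f n < 2) (N i : ℕ) (hi : i < N) :
    cd f N / 2 ^ i % 2 = f i := by
  induction N with
  | zero => omega
  | succ N ih =>
    simp only [cd]
    rcases Nat.lt_succ_iff_lt_or_eq.1 hi with h | h
    · have e1 : 2 ^ N * f N = 2 ^ i * (2 * (2 ^ (N - i - 1) * f N)) := by
        have : 2 ^ N = 2 ^ i * (2 * 2 ^ (N - i - 1)) := by
          rw [← pow_succ', ← pow_add]
          congr 1
          omega
        rw [this]
        ring
      rw [e1, Nat.add_mul_div_left _ _ (by positivity), Nat.add_mul_mod_self_left]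
      exact ih h
    · subst h
      rw [Nat.add_mul_div_left _ _ (by positivity), Nat.div_eq_of_lt (cd_lt hf i), zero_add]
      exact Nat.mod_eq_of_lt (hf i)

theorem cd_mod {f : ℕ → ℕ} (hf : ∀ n, f n < 2) (N k : ℕ) (hk : k ≤ N) :
    cd f N % 2 ^ k = cd f k := by
  induction N with
  | zero =>
    have : k = 0 := by omega
    subst this
    simp [cd]
  | succ N ih =>
    rcases Nat.le_succ_iff.1 hk with h | h
    · simp only [cd]
      have : 2 ^ N = 2 ^ k * 2 ^ (N - k) := by
        rw [← pow_add]; congr 1; omega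
      rw [this, mul_assoc, Nat.add_mul_mod_self_left]
      exact ih h
    · subst h
      exact Nat.mod_eq_of_lt (cd_lt hf _)

theorem bl_cd {f : ℕ → ℕ} (hf : ∀ n, f n < 2) (N j : ℕ) (hj : j ≤ N) :
    bl (cd f N) j = (List.range j).map f := by
  unfold bl
  apply List.map_congr_left
  intro i hi
  rw [List.mem_range] at hi
  exact cd_digit hf N i (by omega)

theorem cls_iff {π : ℕ → ℕ → Bool} {e : ℕ} {f : ℕ → ℕ} :
    f ∈ Cls π e ↔ ∀ n, π e (encode ((List.range n).map f)) = true := by
  constructor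
  · intro h n
    exact h n _ (List.prefix_refl _)
  · intro h n τ hτ
    have h1 : τ = (List.range τ.length).map f := by
      have h2 := List.prefix_iff_eq_take.1 hτ
      have h3 : τ.length ≤ n := by
        have := hτ.length_le
        simpa using this
      rw [← List.map_take, List.take_range, Nat.min_eq_left h3] at h2
      exact h2
    rw [h1]
    exact h _

theorem V_cd {π : ℕ → ℕ → Bool} {e : ℕ} {f : ℕ → ℕ} (hf : f ∈ Q π e) (N : ℕ) :
    V π e (cd f N) N = true := by
  rw [V_iff]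
  intro j hj
  rw [bl_cd hf.2 N j hj]
  exact cls_iff.1 hf.1 j

theorem bl_congr {v w N : ℕ} (h : ∀ i, i < N → v / 2 ^ i % 2 = w / 2 ^ i % 2) :
    bl v N = bl w N := by
  unfold bl
  apply List.map_congr_left
  intro i hi
  rw [List.mem_range] at hi
  exact h i hi

theorem digit_mod {v k i : ℕ} (hi : i < k) : (v % 2 ^ k) / 2 ^ i % 2 = v / 2 ^ i % 2 := by
  have h1 : v = v % 2 ^ k + 2 ^ k * (v / 2 ^ k) := (Nat.mod_add_div v (2 ^ k)).symm
  have h2 : 2 ^ k * (v / 2 ^ k) = 2 ^ i * (2 * (2 ^ (k - i - 1) * (v / 2 ^ k))) := by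
    have : 2 ^ k = 2 ^ i * (2 * 2 ^ (k - i - 1)) := by
      rw [← pow_succ', ← pow_add]
      congr 1
      omega
    nth_rewrite 1 [this]
    ring
  nth_rewrite 2 [h1]
  rw [h2, Nat.add_mul_div_left _ _ (by positivity), Nat.add_mul_mod_self_left]

theorem digit_add {v k i u : ℕ} (hi : i < k) : (v + 2 ^ k * u) / 2 ^ i % 2 = v / 2 ^ i % 2 := by
  rw [← digit_mod (v := v + 2 ^ k * u) hi, Nat.add_mul_mod_self_left, digit_mod hi]

theorem V_congr {π : ℕ → ℕ → Bool} {e v w N M : ℕ} (hNM : N ≤ M)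
    (h : ∀ i, i < N → v / 2 ^ i % 2 = w / 2 ^ i % 2) (hv : V π e v M = true) :
    V π e w N = true := by
  rw [V_iff] at hv ⊢
  intro j hj
  rw [← bl_congr (v := v) (w := w) (N := j) (fun i hi => h i (by omega))]
  exact hv j (by omega)

/-- `w` (with `k` digits) can be extended by any number of digits -/
def Ext (π : ℕ → ℕ → Bool) (e w k : ℕ) : Prop :=
  ∀ b, ∃ u, u < 2 ^ b ∧ V π e (w + 2 ^ k * u) (k + b) = true

theorem ext_step {π : ℕ → ℕ → Bool} {e w k : ℕ} (h : Ext π e w k) :
    Ext π e w (k + 1) ∨ Ext π e (w + 2 ^ k) (k + 1) := by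
  by_contra hcon
  push Not at hcon
  obtain ⟨h1, h2⟩ := hcon
  unfold Ext at h1 h2
  push Not at h1 h2
  obtain ⟨b1, h1⟩ := h1
  obtain ⟨b2, h2⟩ := h2
  obtain ⟨u, -, hu⟩ := h (max b1 b2 + 1)
  have e1 : w + 2 ^ k * u = w + 2 ^ k * (u % 2) + 2 ^ (k + 1) * (u / 2) := by
    have := Nat.mod_add_div u 2
    calc w + 2 ^ k * u = w + 2 ^ k * (u % 2 + 2 * (u / 2)) := by rw [this]
      _ = _ := by ring
  have key : ∀ b, b ≤ max b1 b2 → ∀ w', w' = w + 2 ^ k * (u % 2) →
      V π e (w' + 2 ^ (k + 1) * (u / 2 % 2 ^ b)) (k + 1 + b) = true := by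
    intro b hb w' hw'
    refine V_congr (v := w + 2 ^ k * u) (M := k + (max b1 b2 + 1)) (by omega) ?_ hu
    intro i hi
    rw [e1, ← hw']
    have h3 : w' + 2 ^ (k + 1) * (u / 2) =
        (w' + 2 ^ (k + 1) * (u / 2 % 2 ^ b)) + 2 ^ (k + 1 + b) * (u / 2 / 2 ^ b) := by
      have := Nat.mod_add_div (u / 2) (2 ^ b)
      calc w' + 2 ^ (k + 1) * (u / 2)
          = w' + 2 ^ (k + 1) * (u / 2 % 2 ^ b + 2 ^ b * (u / 2 / 2 ^ b)) := by rw [this]
        _ = _ := by rw [pow_add 2 (k + 1) b]; ring
    rw [h3, digit_add hi]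
  rcases Nat.mod_two_eq_zero_or_one u with h0 | h0
  · have := h1 (u / 2 % 2 ^ b1) (Nat.mod_lt _ (by positivity))
    exact this (key b1 (le_max_left _ _) w (by rw [h0]; ring))
  · have := h2 (u / 2 % 2 ^ b2) (Nat.mod_lt _ (by positivity))
    exact this (key b2 (le_max_right _ _) (w + 2 ^ k) (by rw [h0]; ring))

/-- König's lemma -/
theorem konig {π : ℕ → ℕ → Bool} {e w k : ℕ} (h : Ext π e w k) (hw : w < 2 ^ k) :
    ∃ f ∈ Q π e, cd f k = w := by
  classical
  let s : ℕ → ℕ := fun j => Nat.rec w (fun j v => if Ext π e v (k + j + 1) then v else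
    v + 2 ^ (k + j)) j
  have s0 : s 0 = w := rfl
  have ss : ∀ j, s (j + 1) = if Ext π e (s j) (k + j + 1) then s j else s j + 2 ^ (k + j) :=
    fun j => rfl
  have hs : ∀ j, Ext π e (s j) (k + j) := by
    intro j
    induction j with
    | zero => exact h
    | succ j ih =>
      rw [ss]
      split_ifs with h1
      · exact h1
      · rcases ext_step ih with h2 | h2
        · exact absurd h2 h1
        · exact h2
  have hlt : ∀ j, s j < 2 ^ (k + j) := by
    intro j
    induction j with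
    | zero => exact hw
    | succ j ih =>
      rw [ss]
      have : 2 ^ (k + (j + 1)) = 2 ^ (k + j) + 2 ^ (k + j) := by
        rw [← add_assoc, pow_succ]; ring
      split_ifs <;> omega
  have hdig : ∀ j j', j ≤ j' → ∀ i, i < k + j → s j' / 2 ^ i % 2 = s j / 2 ^ i % 2 := by
    intro j j' hjj
    induction j', hjj using Nat.le_induction with
    | base => intro i _; rfl
    | succ j' hj' ih =>
      intro i hi
      rw [ss]
      split_ifs
      · exact ih i hi
      · have := digit_add (v := s j') (k := k + j') (i := i) (u := 1) (by omega)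
        rw [mul_one] at this
        rw [this]
        exact ih i hi
  let f : ℕ → ℕ := fun i => s (i + 1) / 2 ^ i % 2
  have hf2 : ∀ n, f n < 2 := fun n => Nat.mod_lt _ (by norm_num)
  have hfs : ∀ j i, i < k + j → f i = s j / 2 ^ i % 2 := by
    intro j i hi
    rcases Nat.le_total (i + 1) j with h1 | h1
    · exact (hdig (i + 1) j h1 i (by omega)).symm
    · exact hdig j (i + 1) h1 i hi
  have hfl : ∀ j, (List.range j).map f = bl (s j) j := by
    intro j
    unfold bl
    apply List.map_congr_left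
    intro i hi
    rw [List.mem_range] at hi
    exact hfs j i (by omega)
  refine ⟨f, ⟨?_, hf2⟩, ?_⟩
  · rw [cls_iff]
    intro n
    rw [hfl n]
    obtain ⟨u, hu, h1⟩ := hs n 0
    have hu0 : u = 0 := by simpa using hu
    rw [hu0, mul_zero, add_zero, add_zero, V_iff] at h1
    exact h1 n (by omega)
  · have h1 : ∀ N, N ≤ k → cd f N = w % 2 ^ N := by
      intro N
      induction N with
      | zero => intro _; simp [cd, Nat.mod_one]
      | succ N ih =>
        intro hN
        simp only [cd]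
        rw [ih (by omega), hfs 0 N (by omega), s0]
        have := Nat.mod_add_div (w % 2 ^ (N + 1)) (2 ^ N)
        rw [Nat.mod_mod_of_dvd _ (pow_dvd_pow 2 (Nat.le_succ N))] at this
        rw [← this]
        congr 1
        congr 1
        rw [Nat.mod_pow_succ]
        rw [Nat.add_mul_div_left _ _ (by positivity)]
        rw [Nat.div_eq_of_lt (Nat.mod_lt _ (by positivity)), zero_add]
    rw [h1 k le_rfl]
    exact Nat.mod_eq_of_lt hw

end Pool.R534.IC
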