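import Pool.Agent.R534.IC.Upper

/-!
# Upper bound: `I_C ∈ Γ_C`
-/

namespace Pool.R534.IC

open Encodable

/-- level coded by the witness -/
def lev (a : ℕ) : ℕ := (Denumerable.ofNat (ℕ × List ℕ) a).1

/-- `i`-th node coded by the witness -/
def ind (a i : ℕ) : ℕ := (Denumerable.ofNat (ℕ × List ℕ) a).2.getD i 0 % 2 ^ lev a

theorem primrec_lev : Primrec lev :=
  Primrec.fst.comp (Primrec.ofNat (ℕ × List ℕ))

theorem primrec_ind : Primrec₂ ind := by
  refine Primrec.nat_mod.comp ?_ (primrec_pow.comp (Primrec.const 2)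
    (primrec_lev.comp Primrec.fst))
  exact (Primrec.list_getD (0 : ℕ)).comp
    (Primrec.snd.comp ((Primrec.ofNat (ℕ × List ℕ)).comp Primrec.fst)) Primrec.snd

/-- `V` on triples -/
def V3 (π : ℕ → ℕ → Bool) (p : ℕ × ℕ × ℕ) : Bool := V π p.1 p.2.1 p.2.2

/-- matrix of the `Σ⁰₂` definition of `|Q_e| ≥ c` -/
def RR (π : ℕ → ℕ → Bool) (t : (ℕ × ℕ) × ℕ × ℕ) : Bool :=
  decide (∀ i, i < t.1.1 → decide (∀ j, j < i →
    (!decide (ind t.2.1 i = ind t.2.1 j)) = true) = true) &&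
  decide (∀ i, i < t.1.1 → decide (∃ u, u < 2 ^ t.2.2 ∧
    V3 π (t.1.2, ind t.2.1 i + 2 ^ lev t.2.1 * u, lev t.2.1 + t.2.2) = true) = true)

theorem comp_RR {π : ℕ → ℕ → Bool} (hπ : Computable₂ π) : Computable (RR π) := by
  refine comp_and ?_ ?_
  · refine comp_ball (f := fun (t : (ℕ × ℕ) × ℕ × ℕ) i => decide (∀ j, j < i →
      (!decide (ind t.2.1 i = ind t.2.1 j)) = true)) ?_ (Computable.fst.comp Computable.fst)
    refine comp_ball (α := ((ℕ × ℕ) × ℕ × ℕ) × ℕ)
      (f := fun s j => (!decide (ind s.1.2.1 s.2 = ind s.1.2.1 j))) (n := fun s => s.2) ?_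
      Computable.snd
    have h1 : Primrec (fun r : (((ℕ × ℕ) × ℕ × ℕ) × ℕ) × ℕ => ind r.1.1.2.1 r.1.2) :=
      primrec_ind.comp (Primrec.fst.comp (Primrec.snd.comp (Primrec.fst.comp Primrec.fst)))
        (Primrec.snd.comp Primrec.fst)
    have h2 : Primrec (fun r : (((ℕ × ℕ) × ℕ × ℕ) × ℕ) × ℕ => ind r.1.1.2.1 r.2) :=
      primrec_ind.comp (Primrec.fst.comp (Primrec.snd.comp (Primrec.fst.comp Primrec.fst)))
        Primrec.snd
    have h3 : Primrec (fun r : (((ℕ × ℕ) × ℕ × ℕ) × ℕ) × ℕ =>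
        decide (ind r.1.1.2.1 r.1.2 = ind r.1.1.2.1 r.2)) :=
      (PrimrecRel.comp (R := fun a b : ℕ => a = b) Primrec.eq h1 h2).decide
    exact (Primrec.not.comp h3).to_comp
  · refine comp_ball (f := fun (t : (ℕ × ℕ) × ℕ × ℕ) i => decide (∃ u, u < 2 ^ t.2.2 ∧
      V3 π (t.1.2, ind t.2.1 i + 2 ^ lev t.2.1 * u, lev t.2.1 + t.2.2) = true)) ?_
      (Computable.fst.comp Computable.fst)
    refine comp_bex (α := ((ℕ × ℕ) × ℕ × ℕ) × ℕ)
      (f := fun s u => V3 π (s.1.1.2, ind s.1.2.1 s.2 + 2 ^ lev s.1.2.1 * u,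
        lev s.1.2.1 + s.1.2.2)) (n := fun s => 2 ^ s.1.2.2) ?_ ?_
    · have ha : Primrec (fun r : (((ℕ × ℕ) × ℕ × ℕ) × ℕ) × ℕ => r.1.1.2.1) :=
        Primrec.fst.comp (Primrec.snd.comp (Primrec.fst.comp Primrec.fst))
      have h1 : Primrec (fun r : (((ℕ × ℕ) × ℕ × ℕ) × ℕ) × ℕ => ind r.1.1.2.1 r.1.2) :=
        primrec_ind.comp ha (Primrec.snd.comp Primrec.fst)
      have h2 : Primrec (fun r : (((ℕ × ℕ) × ℕ × ℕ) × ℕ) × ℕ =>
          ind r.1.1.2.1 r.1.2 + 2 ^ lev r.1.1.2.1 * r.2) :=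
        Primrec.nat_add.comp h1 (Primrec.nat_mul.comp
          (primrec_pow.comp (Primrec.const 2) (primrec_lev.comp ha)) Primrec.snd)
      have h3 : Primrec (fun r : (((ℕ × ℕ) × ℕ × ℕ) × ℕ) × ℕ =>
          lev r.1.1.2.1 + r.1.1.2.2) :=
        Primrec.nat_add.comp (primrec_lev.comp ha)
          (Primrec.snd.comp (Primrec.snd.comp (Primrec.fst.comp Primrec.fst)))
      have h4 : Primrec (fun r : (((ℕ × ℕ) × ℕ × ℕ) × ℕ) × ℕ => r.1.1.1.2) :=
        Primrec.snd.comp (Primrec.fst.comp (Primrec.fst.comp Primrec.fst))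
      have h5 : Computable (V3 π) := comp_V hπ
      have h6 : Computable (fun r : (((ℕ × ℕ) × ℕ × ℕ) × ℕ) × ℕ =>
          (r.1.1.1.2, ind r.1.1.2.1 r.1.2 + 2 ^ lev r.1.1.2.1 * r.2,
            lev r.1.1.2.1 + r.1.1.2.2)) :=
        h4.to_comp.pair (h2.to_comp.pair h3.to_comp)
      exact (h5.comp h6).to₂
    · exact (primrec_pow.comp (Primrec.const 2)
        (Primrec.snd.comp (Primrec.snd.comp Primrec.fst))).to_comp

theorem RR_iff {π : ℕ → ℕ → Bool} {c e a b : ℕ} :
    RR π ((c, e), a, b) = true ↔ (∀ i, i < c → ∀ j, j < i → ind a i ≠ ind a j) ∧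
      ∀ i, i < c → ∃ u, u < 2 ^ b ∧ V π e (ind a i + 2 ^ lev a * u) (lev a + b) = true := by
  unfold RR V3
  simp only [Bool.and_eq_true, decide_eq_true_eq, Bool.not_eq_true', decide_eq_false_iff_not,
    ne_eq]

/-- `|Q_e| ≥ c` -/
def Ge (π : ℕ → ℕ → Bool) (c : ℕ) : Set ℕ := {e | (c : ℕ∞) ≤ (Q π e).encard}

theorem ge_iff {π : ℕ → ℕ → Bool} {c e : ℕ} :
    e ∈ Ge π c ↔ ∃ a, ∀ b, RR π ((c, e), a, b) = true := by
  constructor
  · intro h
    obtain ⟨t, hts, htc⟩ := Set.exists_subset_encard_eq (s := Q π e) h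
    have htf : t.Finite := Set.finite_of_encard_eq_coe htc
    have hcard : htf.toFinset.card = c := by
      have := htf.encard_eq_coe_toFinset_card
      rw [htc] at this
      exact_mod_cast this.symm
    let eqv := Finset.equivFinOfCardEq hcard
    let g : Fin c → (ℕ → ℕ) := fun i => (eqv.symm i).1
    have hgQ : ∀ i, g i ∈ Q π e := fun i => hts (htf.mem_toFinset.1 (eqv.symm i).2)
    have hginj : Function.Injective g := by
      intro i j hij
      exact eqv.symm.injective (Subtype.ext hij)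
    have hdiff : ∀ i j : Fin c, ∃ m, i ≠ j → g i m ≠ g j m := by
      intro i j
      by_cases hij : i = j
      · exact ⟨0, fun h => absurd hij h⟩
      · have : g i ≠ g j := fun h => hij (hginj h)
        obtain ⟨m, hm⟩ := Function.ne_iff.1 this
        exact ⟨m, fun _ => hm⟩
    choose m hm using hdiff
    let n : ℕ := Finset.univ.sup (fun p : Fin c × Fin c => m p.1 p.2 + 1)
    have hn : ∀ i j, m i j < n := by
      intro i j
      have : m i j + 1 ≤ n :=
        Finset.le_sup (f := fun p : Fin c × Fin c => m p.1 p.2 + 1) (Finset.mem_univ (i, j))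
      omega
    let G : ℕ → ℕ := fun i => if h : i < c then cd (g ⟨i, h⟩) n else 0
    have hG : ∀ i (h : i < c), G i = cd (g ⟨i, h⟩) n := fun i h => by simp [G, h]
    refine ⟨encode (n, (List.range c).map G), fun b => ?_⟩
    have hlev : lev (encode (n, (List.range c).map G)) = n := by
      unfold lev
      rw [Denumerable.ofNat_encode]
    have hind : ∀ i (h : i < c), ind (encode (n, (List.range c).map G)) i
        = cd (g ⟨i, h⟩) n := by
      intro i h
      unfold ind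
      rw [hlev, Denumerable.ofNat_encode]
      have : ((List.range c).map G).getD i 0 = G i := by
        simp [List.getD, h]
      rw [this, hG i h]
      exact Nat.mod_eq_of_lt (cd_lt (hgQ _).2 n)
    rw [RR_iff]
    refine ⟨?_, ?_⟩
    · intro i hi j hj heq
      have hjc : j < c := by omega
      rw [hind i hi, hind j hjc] at heq
      have hne : (⟨i, hi⟩ : Fin c) ≠ ⟨j, hjc⟩ := by
        intro h
        have := congrArg Fin.val h
        simp only at this
        omega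
      have h1 := hm _ _ hne
      apply h1
      rw [← cd_digit (hgQ ⟨i, hi⟩).2 n _ (hn _ _), ← cd_digit (hgQ ⟨j, hjc⟩).2 n _ (hn _ _),
        heq]
    · intro i hi
      rw [hind i hi, hlev]
      refine ⟨cd (g ⟨i, hi⟩) (n + b) / 2 ^ n, ?_, ?_⟩
      · apply Nat.div_lt_of_lt_mul
        rw [← pow_add]
        exact cd_lt (hgQ _).2 _
      · have h1 : cd (g ⟨i, hi⟩) n + 2 ^ n * (cd (g ⟨i, hi⟩) (n + b) / 2 ^ n)
            = cd (g ⟨i, hi⟩) (n + b) := by
          have := cd_mod (hgQ ⟨i, hi⟩).2 (n + b) n (by omega)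
          rw [← this]
          exact Nat.mod_add_div _ _
        rw [h1]
        exact V_cd (hgQ _) _
  · rintro ⟨a, ha⟩
    have hlt : ∀ i, ind a i < 2 ^ lev a := fun i => Nat.mod_lt _ (by positivity)
    have hk : ∀ i : Fin c, ∃ f ∈ Q π e, cd f (lev a) = ind a i := by
      intro i
      exact konig (fun b => (RR_iff.1 (ha b)).2 i i.2) (hlt i)
    choose g hgQ hg using hk
    have hginj : Function.Injective g := by
      intro i j hij
      have h1 : ind a i = ind a j := by rw [← hg i, ← hg j, hij]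
      rcases Nat.lt_trichotomy i.1 j.1 with h | h | h
      · exact absurd h1.symm ((RR_iff.1 (ha 0)).1 j j.2 i h)
      · exact Fin.ext h
      · exact absurd h1 ((RR_iff.1 (ha 0)).1 i i.2 j h)
    have h2 : (Set.range g).encard = c := by
      rw [← Set.image_univ, hginj.encard_image, Set.encard_univ]
      simp
    show (c : ℕ∞) ≤ (Q π e).encard
    rw [← h2]
    apply Set.encard_le_encard
    rintro _ ⟨i, rfl⟩
    exact hgQ i

theorem uSigma2_ge {π : ℕ → ℕ → Bool} (hπ : Computable₂ π) : USigma2 (Ge π) :=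
  ⟨RR π, comp_RR hπ, fun x => ge_iff (c := x.1) (e := x.2)⟩

theorem pi1_ge {π : ℕ → ℕ → Bool} (hπ : Computable₂ π) : Pi1 (Ge π 1) := by
  refine ⟨fun q => decide (∃ u, u < 2 ^ q.2 ∧ V π q.1 u q.2 = true), ?_, ?_⟩
  · refine comp_bex (f := fun (q : ℕ × ℕ) u => V π q.1 u q.2) (n := fun q => 2 ^ q.2) ?_ ?_
    · have h5 : Computable (V3 π) := comp_V hπ
      have h6 : Computable (fun r : (ℕ × ℕ) × ℕ => (r.1.1, r.2, r.1.2)) :=
        (Computable.fst.comp Computable.fst).pair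
          (Computable.snd.pair (Computable.snd.comp Computable.fst))
      exact (h5.comp h6).to₂
    · exact (primrec_pow.comp (Primrec.const 2) Primrec.snd).to_comp
  · intro e
    show ((1 : ℕ) : ℕ∞) ≤ (Q π e).encard ↔ _
    rw [Nat.cast_one, Set.one_le_encard_iff_nonempty]
    constructor
    · rintro ⟨f, hf⟩ b
      rw [decide_eq_true_eq]
      exact ⟨cd f b, cd_lt hf.2 b, V_cd hf b⟩
    · intro h
      obtain ⟨f, hf, -⟩ := konig (π := π) (e := e) (w := 0) (k := 0) (by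
        intro b
        have := h b
        rw [decide_eq_true_eq] at this
        obtain ⟨u, hu, h1⟩ := this
        refine ⟨u, hu, ?_⟩
        simpa using h1) (by norm_num)
      exact ⟨f, hf⟩

theorem I_iff {π : ℕ → ℕ → Bool} {C : Set ℕ} (e : ℕ) :
    e ∈ I π C ↔ ∃ c ∈ C, e ∈ Ge π c ∧ e ∉ Ge π (c + 1) := by
  constructor
  · rintro ⟨h1, h2⟩
    refine ⟨_, h2, ?_, ?_⟩
    · show (((Q π e).ncard : ℕ) : ℕ∞) ≤ (Q π e).encard
      rw [h1.cast_ncard_eq]
    · show ¬ ((((Q π e).ncard + 1 : ℕ) : ℕ∞) ≤ (Q π e).encard)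
      rw [← h1.cast_ncard_eq]
      intro h
      have : (Q π e).ncard + 1 ≤ (Q π e).ncard := by exact_mod_cast h
      omega
  · rintro ⟨c, hc, h1, h2⟩
    have h1' : (c : ℕ∞) ≤ (Q π e).encard := h1
    have h2' : (Q π e).encard < ((c + 1 : ℕ) : ℕ∞) := not_le.1 h2
    have hfin : (Q π e).Finite := Set.finite_of_encard_le_coe h2'.le
    refine ⟨hfin, ?_⟩
    rw [← hfin.cast_ncard_eq] at h1' h2'
    have h3 : c ≤ (Q π e).ncard := by exact_mod_cast h1'
    have h4 : (Q π e).ncard < c + 1 := by exact_mod_cast h2'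
    have : (Q π e).ncard = c := by omega
    rw [this]
    exact hc

theorem I_mem_Gam {π : ℕ → ℕ → Bool} (hπ : Computable₂ π) (C : Set ℕ) : Gam C (I π C) := by
  refine ⟨Ge π, ?_, pi1_ge hπ, uSigma2_ge hπ, ?_, I_iff⟩
  · ext e
    simp [Ge]
  · intro c e h
    have h' : ((c + 1 : ℕ) : ℕ∞) ≤ (Q π e).encard := h
    show (c : ℕ∞) ≤ (Q π e).encard
    refine le_trans ?_ h'
    exact_mod_cast Nat.le_succ c

end Pool.R534.IC
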